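import Mathlib

/-!
# Completely multiplicative extensions (project KS, MP_768c9c_nt)

`cm F` is the completely multiplicative function `ℕ →*₀ ℝ` with `cm F p = F p`.
-/

set_option autoImplicit false

namespace Pool.Agent.Helper33.KS

open Finset

/-- the completely multiplicative function with values `F p` at the primes -/
noncomputable def cm (F : ℕ → ℝ) : ℕ →*₀ ℝ where
  toFun n := if n = 0 then 0 else n.factorization.prod fun p v => F p ^ v
  map_zero' := by simp
  map_one' := by simp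
  map_mul' := by
    intro m n
    by_cases hm : m = 0
    · simp [hm]
    by_cases hn : n = 0
    · simp [hn]
    rw [if_neg (mul_ne_zero hm hn), if_neg hm, if_neg hn, Nat.factorization_mul hm hn]
    rw [Finsupp.prod_add_index' (by simp) (by intro p a b; exact pow_add _ _ _)]

theorem cm_apply (F : ℕ → ℝ) {n : ℕ} (hn : n ≠ 0) :
    cm F n = n.factorization.prod fun p v => F p ^ v := by
  show (if n = 0 then (0 : ℝ) else _) = _
  rw [if_neg hn]

theorem cm_apply' (F : ℕ → ℝ) {n : ℕ} (hn : n ≠ 0) :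
    cm F n = ∏ p ∈ n.primeFactors, F p ^ n.factorization p := by
  rw [cm_apply F hn]; rfl

theorem cm_prime (F : ℕ → ℝ) {p : ℕ} (hp : p.Prime) : cm F p = F p := by
  rw [cm_apply F hp.ne_zero, hp.factorization]
  simp

theorem cm_pow_prime (F : ℕ → ℝ) {p : ℕ} (hp : p.Prime) (v : ℕ) : cm F (p ^ v) = F p ^ v := by
  rw [map_pow, cm_prime F hp]

theorem cm_nonneg {F : ℕ → ℝ} (hF : ∀ p, p.Prime → 0 ≤ F p) (n : ℕ) : 0 ≤ cm F n := by
  by_cases hn : n = 0
  · simp [hn]
  rw [cm_apply' F hn]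
  exact Finset.prod_nonneg fun p hp => pow_nonneg (hF p (Nat.prime_of_mem_primeFactors hp)) _

theorem cm_mono {F G : ℕ → ℝ} {n : ℕ} (hF : ∀ p, p.Prime → p ∣ n → 0 ≤ F p)
    (hFG : ∀ p, p.Prime → p ∣ n → F p ≤ G p) : cm F n ≤ cm G n := by
  by_cases hn : n = 0
  · simp [hn]
  rw [cm_apply' F hn, cm_apply' G hn]
  refine Finset.prod_le_prod (fun p hp => pow_nonneg (hF p (Nat.prime_of_mem_primeFactors hp)
    (Nat.dvd_of_mem_primeFactors hp)) _) fun p hp => ?_
  exact pow_le_pow_left₀ (hF p (Nat.prime_of_mem_primeFactors hp)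
    (Nat.dvd_of_mem_primeFactors hp)) (hFG p (Nat.prime_of_mem_primeFactors hp)
    (Nat.dvd_of_mem_primeFactors hp)) _

theorem cm_congr {F G : ℕ → ℝ} {n : ℕ} (hFG : ∀ p, p.Prime → p ∣ n → F p = G p) :
    cm F n = cm G n := by
  by_cases hn : n = 0
  · simp [hn]
  rw [cm_apply' F hn, cm_apply' G hn]
  refine Finset.prod_congr rfl fun p hp => ?_
  rw [hFG p (Nat.prime_of_mem_primeFactors hp) (Nat.dvd_of_mem_primeFactors hp)]

theorem cm_mul_fun (F G : ℕ → ℝ) (n : ℕ) : cm (fun p => F p * G p) n = cm F n * cm G n := by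
  by_cases hn : n = 0
  · simp [hn]
  rw [cm_apply' _ hn, cm_apply' _ hn, cm_apply' _ hn, ← Finset.prod_mul_distrib]
  refine Finset.prod_congr rfl fun p _ => ?_
  rw [mul_pow]

theorem cm_rpow (a : ℝ) {n : ℕ} (hn : n ≠ 0) : cm (fun p => (p : ℝ) ^ a) n = (n : ℝ) ^ a := by
  induction n using Nat.recOnMul with
  | zero => exact absurd rfl hn
  | one => simp
  | prime p hp => rw [cm_prime _ hp]
  | mul m n hm hn' =>
    have hm0 : m ≠ 0 := fun h => hn (by simp [h])
    have hn0 : n ≠ 0 := fun h => hn (by simp [h])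
    rw [map_mul, hm hm0, hn' hn0, Nat.cast_mul, Real.mul_rpow (by positivity) (by positivity)]

theorem cm_const (c : ℝ) {n : ℕ} (hn : n ≠ 0) :
    cm (fun _ => c) n = c ^ n.primeFactorsList.length := by
  induction n using Nat.recOnMul with
  | zero => exact absurd rfl hn
  | one => simp
  | prime p hp => rw [cm_prime _ hp, Nat.primeFactorsList_prime hp]; simp
  | mul m n hm hn' =>
    have hm0 : m ≠ 0 := fun h => hn (by simp [h])
    have hn0 : n ≠ 0 := fun h => hn (by simp [h])
    rw [map_mul, hm hm0, hn' hn0, ← pow_add, ← List.length_append,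
      (Nat.perm_primeFactorsList_mul hm0 hn0).length_eq]

/-- uniqueness -/
theorem eq_cm (f : ℕ →*₀ ℝ) (n : ℕ) : f n = cm (fun p => f p) n := by
  induction n using Nat.recOnMul with
  | zero => simp
  | one => simp
  | prime p hp => rw [cm_prime _ hp]
  | mul m n hm hn => rw [map_mul, map_mul, hm, hn]

/-! ### Telescoping -/

/-- `cm (F + G) n ≤ cm F n + ∑_{p ∣ n} v_p(n) G(p) cm (F + G) (n / p)` -/
theorem cm_tele {F G : ℕ → ℝ} (hF : ∀ p, p.Prime → 0 ≤ F p) (hG : ∀ p, p.Prime → 0 ≤ G p)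
    (n : ℕ) : n ≠ 0 →
    cm (fun p => F p + G p) n ≤ cm F n +
      ∑ p ∈ n.primeFactors, (n.factorization p : ℝ) * (G p * cm (fun p => F p + G p) (n / p)) := by
  induction n using Nat.recOnMul with
  | zero => intro h; exact absurd rfl h
  | one => intro _; simp
  | prime p hp =>
    intro _
    rw [cm_prime _ hp, cm_prime _ hp, hp.primeFactors, Finset.sum_singleton, hp.factorization_self,
      Nat.div_self hp.pos, map_one]
    simp
  | mul m n hm hn =>
    intro hmn
    have hm0 : m ≠ 0 := fun h => hmn (by simp [h])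
    have hn0 : n ≠ 0 := fun h => hmn (by simp [h])
    set W := cm (fun p => F p + G p) with hW
    have hW0 : ∀ k, 0 ≤ W k := fun k => cm_nonneg (fun p hp => add_nonneg (hF p hp) (hG p hp)) k
    have hF0 : ∀ k, 0 ≤ cm F k := fun k => cm_nonneg hF k
    have key : ∀ a b : ℕ, a ≠ 0 → b ≠ 0 →
        (∑ p ∈ a.primeFactors, (a.factorization p : ℝ) * (G p * W (a / p))) * W b =
        ∑ p ∈ (a * b).primeFactors, (a.factorization p : ℝ) * (G p * W (a * b / p)) := by
      intro a b ha hb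
      rw [Finset.sum_mul, Nat.primeFactors_mul ha hb]
      rw [← Finset.sum_subset (Finset.subset_union_left (s₂ := b.primeFactors)) ?_]
      · refine Finset.sum_congr rfl fun p hp => ?_
        have hpa := Nat.dvd_of_mem_primeFactors hp
        have h1 : a * b / p = a / p * b := (Nat.div_mul_right_comm hpa b).symm
        rw [h1, map_mul]; ring
      · intro p hp hpa
        have : a.factorization p = 0 := by
          rw [← Finsupp.notMem_support_iff, Nat.support_factorization]; exact hpa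
        rw [this]; simp
    have h1 := hm hm0
    have h2 := hn hn0
    calc W (m * n) = W m * W n := map_mul W m n
      _ ≤ (cm F m + ∑ p ∈ m.primeFactors, (m.factorization p : ℝ) * (G p * W (m / p))) * W n :=
          mul_le_mul_of_nonneg_right h1 (hW0 n)
      _ = cm F m * W n + ∑ p ∈ (m * n).primeFactors,
            (m.factorization p : ℝ) * (G p * W (m * n / p)) := by
          rw [add_mul, key m n hm0 hn0]
      _ ≤ cm F m * (cm F n + ∑ p ∈ n.primeFactors, (n.factorization p : ℝ) * (G p * W (n / p))) +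
            ∑ p ∈ (m * n).primeFactors, (m.factorization p : ℝ) * (G p * W (m * n / p)) := by
          gcongr
          exact hF0 m
      _ ≤ cm F (m * n) + (∑ p ∈ n.primeFactors, (n.factorization p : ℝ) * (G p * W (n / p))) * W m
            + ∑ p ∈ (m * n).primeFactors, (m.factorization p : ℝ) * (G p * W (m * n / p)) := by
          rw [mul_add, map_mul, mul_comm (cm F m) (∑ p ∈ n.primeFactors, _)]
          have h3 : cm F m ≤ W m := cm_mono (fun p hp _ => hF p hp)
            (fun p hp _ => le_add_of_nonneg_right (hG p hp))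
          have h4 : 0 ≤ ∑ p ∈ n.primeFactors, (n.factorization p : ℝ) * (G p * W (n / p)) :=
            Finset.sum_nonneg fun p hp => mul_nonneg (Nat.cast_nonneg _)
              (mul_nonneg (hG p (Nat.prime_of_mem_primeFactors hp)) (hW0 _))
          have h5 := mul_le_mul_of_nonneg_left h3 h4
          linarith
      _ = cm F (m * n) + ∑ p ∈ (m * n).primeFactors, ((m * n).factorization p : ℝ) *
            (G p * W (m * n / p)) := by
          rw [key n m hn0 hm0, mul_comm n m, add_assoc, ← Finset.sum_add_distrib]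
          congr 1
          refine Finset.sum_congr rfl fun p _ => ?_
          rw [Nat.factorization_mul hm0 hn0, Finsupp.add_apply]
          push_cast; ring

/-! ### Splitting -/

/-- the completely multiplicative function as an arithmetic function -/
noncomputable def cmA (F : ℕ → ℝ) : ArithmeticFunction ℝ where
  toFun := cm F
  map_zero' := map_zero _

theorem cmA_apply (F : ℕ → ℝ) (n : ℕ) : cmA F n = cm F n := rfl

theorem cmA_mult (F : ℕ → ℝ) : (cmA F).IsMultiplicative := by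
  refine ⟨?_, ?_⟩
  · rw [cmA_apply, map_one]
  · intro m n _
    rw [cmA_apply, cmA_apply, cmA_apply, map_mul]

/-- two-fold splitting with weights `t`, `1 - t` -/
theorem cm_split {F G : ℕ → ℝ} (hF : ∀ p, p.Prime → 0 ≤ F p) (hG : ∀ p, p.Prime → 0 ≤ G p)
    (t u : ℝ) (ht : 0 < t) (hu : 0 < u) (htu : t + u = 1) {n : ℕ} (hn : n ≠ 0) :
    cm (fun p => F p + G p) n ≤
      ∑ x ∈ n.divisorsAntidiagonal, cm (fun p => t⁻¹ * F p) x.1 * cm (fun p => u⁻¹ * G p) x.2 := by
  have h1 : ∑ x ∈ n.divisorsAntidiagonal, cm (fun p => t⁻¹ * F p) x.1 * cm (fun p => u⁻¹ * G p) x.2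
      = (cmA (fun p => t⁻¹ * F p) * cmA (fun p => u⁻¹ * G p)) n := by
    rw [ArithmeticFunction.mul_apply]; rfl
  rw [h1, ((cmA_mult _).mul (cmA_mult _)).multiplicative_factorization _ hn, cm_apply _ hn]
  unfold Finsupp.prod
  refine Finset.prod_le_prod (fun p hp => pow_nonneg ?_ _) fun p hp => ?_
  · have hpp := Nat.prime_of_mem_primeFactors (Nat.support_factorization n ▸ hp)
    exact add_nonneg (hF p hpp) (hG p hpp)
  · have hpp := Nat.prime_of_mem_primeFactors (Nat.support_factorization n ▸ hp)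
    set v := n.factorization p
    show (F p + G p) ^ v ≤ (cmA (fun p => t⁻¹ * F p) * cmA (fun p => u⁻¹ * G p)) (p ^ v)
    rw [ArithmeticFunction.mul_apply, Nat.sum_divisorsAntidiagonal
      (f := fun a b => cmA (fun p => t⁻¹ * F p) a * cmA (fun p => u⁻¹ * G p) b),
      Nat.sum_divisors_prime_pow hpp]
    rw [add_pow]
    refine Finset.sum_le_sum fun j hj => ?_
    have hjv : j ≤ v := by have := Finset.mem_range.mp hj; omega
    have h2 : p ^ v / p ^ j = p ^ (v - j) := Nat.pow_div hjv hpp.pos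
    rw [h2, cmA_apply, cmA_apply, cm_pow_prime _ hpp, cm_pow_prime _ hpp, mul_pow, mul_pow]
    have h3 : (v.choose j : ℝ) * (t ^ j * u ^ (v - j)) ≤ 1 := by
      have h4 : (t + u) ^ v = 1 := by rw [htu, one_pow]
      rw [add_pow] at h4
      have h5 : t ^ j * u ^ (v - j) * (v.choose j : ℝ) ≤
          ∑ m ∈ Finset.range (v + 1), t ^ m * u ^ (v - m) * (v.choose m : ℝ) :=
        Finset.single_le_sum (f := fun m => t ^ m * u ^ (v - m) * (v.choose m : ℝ))
          (fun m _ => by positivity) hj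
      rw [h4] at h5
      linarith
    have h6 : (v.choose j : ℝ) ≤ t⁻¹ ^ j * u⁻¹ ^ (v - j) := by
      rw [inv_pow, inv_pow, ← mul_inv]
      rw [le_inv_comm₀ ?_ (by positivity)]
      · rw [← one_div, le_div_iff₀ (by exact_mod_cast Nat.choose_pos hjv)]
        linarith
      · exact_mod_cast Nat.choose_pos hjv
    have h7 : 0 ≤ F p ^ j * G p ^ (v - j) :=
      mul_nonneg (pow_nonneg (hF p hpp) _) (pow_nonneg (hG p hpp) _)
    calc F p ^ j * G p ^ (v - j) * (v.choose j : ℝ)
        ≤ F p ^ j * G p ^ (v - j) * (t⁻¹ ^ j * u⁻¹ ^ (v - j)) :=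
          mul_le_mul_of_nonneg_left h6 h7
      _ = _ := by ring

/-- two-fold splitting with factors `2` -/
theorem cm_split_two {F G : ℕ → ℝ} (hF : ∀ p, p.Prime → 0 ≤ F p) (hG : ∀ p, p.Prime → 0 ≤ G p)
    {n : ℕ} (hn : n ≠ 0) :
    cm (fun p => F p + G p) n ≤
      ∑ x ∈ n.divisorsAntidiagonal, cm (fun p => 2 * F p) x.1 * cm (fun p => 2 * G p) x.2 := by
  have h := cm_split hF hG (1 / 2) (1 / 2) (by norm_num) (by norm_num) (by norm_num) hn
  simpa using h

/-- three-fold splitting with factors `3` -/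
theorem cm_split_three {F G H : ℕ → ℝ} (hF : ∀ p, p.Prime → 0 ≤ F p)
    (hG : ∀ p, p.Prime → 0 ≤ G p) (hH : ∀ p, p.Prime → 0 ≤ H p) {n : ℕ} (hn : n ≠ 0) :
    cm (fun p => F p + G p + H p) n ≤
      ∑ x ∈ n.divisorsAntidiagonal, (∑ y ∈ x.1.divisorsAntidiagonal,
        cm (fun p => 3 * F p) y.1 * cm (fun p => 3 * G p) y.2) * cm (fun p => 3 * H p) x.2 := by
  have h := cm_split (F := fun p => F p + G p) (G := H) (fun p hp => add_nonneg (hF p hp) (hG p hp))
    hH (2 / 3) (1 / 3) (by norm_num) (by norm_num) (by norm_num) hn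
  refine h.trans (Finset.sum_le_sum fun x hx => ?_)
  have hx1 : x.1 ≠ 0 := by
    have := Nat.mem_divisorsAntidiagonal.mp hx
    intro h0
    apply this.2
    rw [← this.1, h0, zero_mul]
  have h3 : (fun p => (1 / 3 : ℝ)⁻¹ * H p) = fun p => 3 * H p := by
    funext p; norm_num
  have h4 : cm (fun p => (2 / 3 : ℝ)⁻¹ * (F p + G p)) x.1 ≤
      ∑ y ∈ x.1.divisorsAntidiagonal, cm (fun p => 3 * F p) y.1 * cm (fun p => 3 * G p) y.2 := by
    have h5 := cm_split (F := fun p => (3 / 2 : ℝ) * F p) (G := fun p => (3 / 2 : ℝ) * G p)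
      (fun p hp => mul_nonneg (by norm_num) (hF p hp))
      (fun p hp => mul_nonneg (by norm_num) (hG p hp)) (1 / 2) (1 / 2) (by norm_num) (by norm_num)
      (by norm_num) hx1
    have e1 : (fun p => (2 / 3 : ℝ)⁻¹ * (F p + G p)) = fun p => 3 / 2 * F p + 3 / 2 * G p := by
      funext p; ring
    have e2 : (fun p => (1 / 2 : ℝ)⁻¹ * (3 / 2 * F p)) = fun p => 3 * F p := by
      funext p; ring
    have e3 : (fun p => (1 / 2 : ℝ)⁻¹ * (3 / 2 * G p)) = fun p => 3 * G p := by
      funext p; ring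
    rw [e1]
    rw [e2, e3] at h5
    exact h5
  rw [h3]
  exact mul_le_mul_of_nonneg_right h4 (cm_nonneg (fun p hp => mul_nonneg (by norm_num) (hH p hp)) _)

/-! ### Sums -/

/-- `∑_{1 ≤ n ≤ N} cm F n ≤ exp (2 ∑_{p ≤ N} F p)` -/
theorem sum_cm_le {F : ℕ → ℝ} (hF : ∀ p, p.Prime → 0 ≤ F p) (hF2 : ∀ p, p.Prime → F p ≤ 1 / 2)
    (N : ℕ) : ∑ n ∈ Finset.Icc 1 N, cm F n ≤
      Real.exp (2 * ∑ p ∈ (Finset.Icc 1 N).filter Nat.Prime, F p) := by
  have hlt : ∀ {p : ℕ}, p.Prime → ‖cm F p‖ < 1 := by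
    intro p hp
    rw [cm_prime F hp, Real.norm_of_nonneg (hF p hp)]
    linarith [hF2 p hp]
  have hsm := EulerProduct.summable_and_hasSum_smoothNumbers_prod_primesBelow_geometric
    (f := ((cm F : ℕ →*₀ ℝ) : ℕ →* ℝ)) (fun hp => hlt hp) (N + 1)
  simp only [MonoidHom.coe_coe] at hsm
  have h1 : ∑ n ∈ Finset.Icc 1 N, cm F n ≤ ∏ p ∈ (N + 1).primesBelow, (1 - cm F p)⁻¹ := by
    rw [← hsm.2.tsum_eq]
    have hsub : ∀ n ∈ Finset.Icc 1 N, n ∈ Nat.smoothNumbers (N + 1) := by
      intro n hn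
      obtain ⟨hn1, hn2⟩ := Finset.mem_Icc.mp hn
      rw [Nat.mem_smoothNumbers']
      intro p _ hpn
      have := Nat.le_of_dvd (by omega) hpn
      omega
    classical
    have h2 : ∑ n ∈ Finset.Icc 1 N, cm F n =
        ∑ n ∈ (Finset.Icc 1 N).subtype (fun n => n ∈ Nat.smoothNumbers (N + 1)),
          cm F (n : ℕ) := (Finset.sum_subtype_of_mem (fun n => cm F n) hsub).symm
    rw [h2]
    refine Summable.sum_le_tsum _ (fun n _ => cm_nonneg hF _) ?_
    exact hsm.2.summable
  refine h1.trans ?_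
  rw [Finset.mul_sum, Real.exp_sum]
  have h3 : (N + 1).primesBelow = (Finset.Icc 1 N).filter Nat.Prime := by
    ext p
    rw [Nat.mem_primesBelow, Finset.mem_filter, Finset.mem_Icc]
    constructor
    · rintro ⟨h, hp⟩; exact ⟨⟨hp.pos, by omega⟩, hp⟩
    · rintro ⟨⟨_, h⟩, hp⟩; exact ⟨by omega, hp⟩
  rw [h3]
  refine Finset.prod_le_prod (fun p hp => ?_) fun p hp => ?_
  · have hpp := (Finset.mem_filter.mp hp).2
    rw [cm_prime F hpp]
    have := hF2 p hpp
    exact inv_nonneg.mpr (by linarith)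
  · have hpp := (Finset.mem_filter.mp hp).2
    rw [cm_prime F hpp]
    have h4 := hF2 p hpp
    have h5 := hF p hpp
    rw [inv_le_iff_one_le_mul₀ (by linarith)]
    have h6 : 1 + 2 * F p ≤ Real.exp (2 * F p) := by
      have := Real.add_one_le_exp (2 * F p); linarith
    nlinarith

/-- `∑_{2 ≤ n ≤ N} cm F n ≤ exp (2 ∑_{p ≤ N} F p) - 1` -/
theorem sum_cm_le' {F : ℕ → ℝ} (hF : ∀ p, p.Prime → 0 ≤ F p) (hF2 : ∀ p, p.Prime → F p ≤ 1 / 2)
    (N : ℕ) : ∑ n ∈ Finset.Icc 2 N, cm F n ≤
      Real.exp (2 * ∑ p ∈ (Finset.Icc 1 N).filter Nat.Prime, F p) - 1 := by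
  have h := sum_cm_le hF hF2 N
  rcases Nat.eq_zero_or_pos N with h0 | h0
  · subst h0; simp
  · have h1 : Finset.Icc 1 N = insert 1 (Finset.Icc 2 N) := by
      ext x; simp only [Finset.mem_insert, Finset.mem_Icc]; omega
    rw [h1, Finset.sum_insert (by simp), map_one] at h
    rw [h1]
    linarith

end Pool.Agent.Helper33.KS
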