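import Mathlib

/-!
# Random sets: moments, upper and lower tails (project KS, MP_768c9c_nt)

`R : Ω → Set ι` is a random set, `Y` is a nonnegative combination of the events `S t ⊆ R`.
* `moment`: high moments of `Y` in terms of the conditional expectations
  `∑_{t : A ⊆ S t} w t ∏_{i ∈ S t \ A} p i`;
* `upper_tail`: the Markov form;
* `lower_tail`: Chebyshev;
* `copies_lower`: `h` independent copies, failure probability to the power `h`;
* `copies_upper`: the union of `h` independent copies satisfies the hypothesis of `moment`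
  with `h * p i`;
* `bern_exact`: the Bernoulli random set.
-/

set_option autoImplicit false

open MeasureTheory

namespace Pool.Agent.Helper33.KS

section general

variable {Ω ι τ : Type*}

open Classical in
/-- `1` if all the elements of `A` are in `R`, `0` otherwise -/
noncomputable def ind (R : Set ι) (A : Finset ι) : ℝ := if (A : Set ι) ⊆ R then 1 else 0

/-- the random sum -/
noncomputable def YY (T : Finset τ) (w : τ → ℝ) (S : τ → Finset ι) (R : Set ι) : ℝ :=
  ∑ t ∈ T, w t * ind R (S t)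

theorem ind_nonneg (R : Set ι) (A : Finset ι) : 0 ≤ ind R A := by
  unfold ind; split_ifs <;> norm_num

theorem ind_le_one (R : Set ι) (A : Finset ι) : ind R A ≤ 1 := by
  unfold ind; split_ifs <;> norm_num

theorem ind_empty (R : Set ι) : ind R (∅ : Finset ι) = 1 := by
  unfold ind; simp

theorem ind_union [DecidableEq ι] (R : Set ι) (A B : Finset ι) :
    ind R A * ind R B = ind R (A ∪ B) := by
  unfold ind
  by_cases hA : (A : Set ι) ⊆ R <;> by_cases hB : (B : Set ι) ⊆ R <;>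
    simp [hA, hB, Finset.coe_union, Set.union_subset_iff]

theorem ind_mono {R R' : Set ι} (h : R ⊆ R') (A : Finset ι) : ind R A ≤ ind R' A := by
  unfold ind
  by_cases hA : (A : Set ι) ⊆ R
  · rw [if_pos hA, if_pos (hA.trans h)]
  · rw [if_neg hA]; split_ifs <;> norm_num

theorem YY_nonneg {T : Finset τ} {w : τ → ℝ} (hw : ∀ t ∈ T, 0 ≤ w t) (S : τ → Finset ι)
    (R : Set ι) : 0 ≤ YY T w S R :=
  Finset.sum_nonneg fun t ht => mul_nonneg (hw t ht) (ind_nonneg _ _)

theorem YY_mono {T : Finset τ} {w : τ → ℝ} (hw : ∀ t ∈ T, 0 ≤ w t) (S : τ → Finset ι)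
    {R R' : Set ι} (h : R ⊆ R') : YY T w S R ≤ YY T w S R' :=
  Finset.sum_le_sum fun t ht => mul_le_mul_of_nonneg_left (ind_mono h _) (hw t ht)

theorem YY_le {T : Finset τ} {w : τ → ℝ} (hw : ∀ t ∈ T, 0 ≤ w t) (S : τ → Finset ι)
    (R : Set ι) : YY T w S R ≤ ∑ t ∈ T, w t := by
  refine Finset.sum_le_sum fun t ht => ?_
  calc w t * ind R (S t) ≤ w t * 1 := mul_le_mul_of_nonneg_left (ind_le_one _ _) (hw t ht)
    _ = w t := mul_one _

/-! ### A combinatorial bound -/

theorem card_small_subsets [DecidableEq ι] (U : Finset ι) (D : ℕ) :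
    (U.powerset.filter (fun A => A.Nonempty ∧ A.card ≤ D)).card ≤ U.card ^ D := by
  classical
  have h1 : U.powerset.filter (fun A => A.Nonempty ∧ A.card ≤ D) ⊆
      (Finset.univ : Finset (Fin D → U)).image
        (fun g => Finset.univ.image (fun i => ((g i : U) : ι))) := by
    intro A hA
    rw [Finset.mem_filter, Finset.mem_powerset] at hA
    obtain ⟨hAU, hne, hcard⟩ := hA
    obtain ⟨a0, ha0⟩ := hne
    rw [Finset.mem_image]
    let e := A.equivFin
    refine ⟨fun i => if h : (i : ℕ) < A.card then ⟨(e.symm ⟨i, h⟩ : ι), hAU (e.symm ⟨i, h⟩).2⟩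
      else ⟨a0, hAU ha0⟩, Finset.mem_univ _, ?_⟩
    ext x
    rw [Finset.mem_image]
    constructor
    · rintro ⟨i, _, hi⟩
      dsimp only at hi
      by_cases h : (i : ℕ) < A.card
      · rw [dif_pos h] at hi
        rw [← hi]
        exact (e.symm ⟨i, h⟩).2
      · rw [dif_neg h] at hi
        rw [← hi]
        exact ha0
    · intro hx
      have h2 : ((e ⟨x, hx⟩ : Fin A.card) : ℕ) < A.card := (e ⟨x, hx⟩).2
      refine ⟨⟨(e ⟨x, hx⟩ : Fin A.card), lt_of_lt_of_le h2 hcard⟩, Finset.mem_univ _, ?_⟩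
      dsimp only
      rw [dif_pos h2]
      simp
  refine (Finset.card_le_card h1).trans (Finset.card_image_le.trans ?_)
  simp

theorem sum_sdiff_le [DecidableEq ι] (T : Finset τ) (w : τ → ℝ) (S : τ → Finset ι) (p : ι → ℝ)
    (hp : ∀ i, 0 ≤ p i) (hw : ∀ t ∈ T, 0 ≤ w t) (D : ℕ) (hS : ∀ t ∈ T, (S t).card ≤ D)
    (E0 M : ℝ) (hM0 : 0 ≤ M) (h0 : ∑ t ∈ T, w t * ∏ i ∈ S t, p i ≤ E0)
    (hM : ∀ A : Finset ι, A.Nonempty →
      ∑ t ∈ T.filter (fun t => A ⊆ S t), w t * ∏ i ∈ S t \ A, p i ≤ M) (U : Finset ι) :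
    ∑ t ∈ T, w t * ∏ i ∈ S t \ U, p i ≤ E0 + (U.card : ℝ) ^ D * M := by
  classical
  set 𝒜 := U.powerset.filter (fun A => A.Nonempty ∧ A.card ≤ D) with h𝒜
  have hterm : ∀ t ∈ T, ∀ A : Finset ι, 0 ≤ w t * ∏ i ∈ S t \ A, p i := fun t ht A =>
    mul_nonneg (hw t ht) (Finset.prod_nonneg fun i _ => hp i)
  have h1 : ∀ t ∈ T, w t * ∏ i ∈ S t \ U, p i ≤ w t * ∏ i ∈ S t, p i +
      ∑ A ∈ 𝒜, if A ⊆ S t then w t * ∏ i ∈ S t \ A, p i else 0 := by
    intro t ht
    by_cases hne : (S t ∩ U).Nonempty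
    · have hmem : S t ∩ U ∈ 𝒜 := by
        rw [h𝒜, Finset.mem_filter, Finset.mem_powerset]
        exact ⟨Finset.inter_subset_right, hne,
          (Finset.card_le_card Finset.inter_subset_left).trans (hS t ht)⟩
      have h2 : (if S t ∩ U ⊆ S t then w t * ∏ i ∈ S t \ (S t ∩ U), p i else 0) ≤
          ∑ A ∈ 𝒜, if A ⊆ S t then w t * ∏ i ∈ S t \ A, p i else 0 := by
        refine Finset.single_le_sum
          (f := fun A => if A ⊆ S t then w t * ∏ i ∈ S t \ A, p i else 0) ?_ hmem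
        intro A _
        show 0 ≤ if A ⊆ S t then w t * ∏ i ∈ S t \ A, p i else 0
        split_ifs
        · exact hterm t ht A
        · exact le_rfl
      rw [if_pos Finset.inter_subset_left, Finset.sdiff_inter_self_left] at h2
      have h3 := hterm t ht ∅
      rw [Finset.sdiff_empty] at h3
      linarith
    · rw [Finset.not_nonempty_iff_eq_empty] at hne
      have h2 : S t \ U = S t := by
        rw [Finset.sdiff_eq_self_iff_disjoint, Finset.disjoint_iff_inter_eq_empty]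
        exact hne
      rw [h2]
      have h3 : 0 ≤ ∑ A ∈ 𝒜, if A ⊆ S t then w t * ∏ i ∈ S t \ A, p i else 0 := by
        refine Finset.sum_nonneg fun A _ => ?_
        split_ifs
        · exact hterm t ht A
        · exact le_rfl
      linarith
  have h4 : ∑ t ∈ T, w t * ∏ i ∈ S t \ U, p i ≤ ∑ t ∈ T, w t * ∏ i ∈ S t, p i +
      ∑ A ∈ 𝒜, ∑ t ∈ T.filter (fun t => A ⊆ S t), w t * ∏ i ∈ S t \ A, p i := by
    refine (Finset.sum_le_sum h1).trans ?_
    rw [Finset.sum_add_distrib, Finset.sum_comm]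
    simp only [Finset.sum_filter]
    exact le_rfl
  have h5 : ∑ A ∈ 𝒜, ∑ t ∈ T.filter (fun t => A ⊆ S t), w t * ∏ i ∈ S t \ A, p i ≤
      (U.card : ℝ) ^ D * M := by
    calc ∑ A ∈ 𝒜, ∑ t ∈ T.filter (fun t => A ⊆ S t), w t * ∏ i ∈ S t \ A, p i
        ≤ ∑ _A ∈ 𝒜, M := Finset.sum_le_sum fun A hA => hM A (by
          rw [h𝒜, Finset.mem_filter] at hA; exact hA.2.1)
      _ = (𝒜.card : ℝ) * M := by rw [Finset.sum_const, nsmul_eq_mul]
      _ ≤ (U.card : ℝ) ^ D * M := by
          apply mul_le_mul_of_nonneg_right _ hM0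
          exact_mod_cast card_small_subsets U D
  linarith

/-! ### Moments -/

variable [MeasurableSpace Ω]

omit [MeasurableSpace Ω] in
theorem ind_eq_indicator (R : Ω → Set ι) (A : Finset ι) :
    (fun ω => ind (R ω) A) = Set.indicator {ω | (A : Set ι) ⊆ R ω} (fun _ => (1 : ℝ)) := by
  funext ω
  unfold ind
  by_cases h : (A : Set ι) ⊆ R ω
  · rw [if_pos h, Set.indicator_of_mem (by exact h)]
  · rw [if_neg h, Set.indicator_of_notMem (by exact h)]

theorem ind_meas {R : Ω → Set ι} (hmeas : ∀ A : Finset ι, MeasurableSet {ω | (A : Set ι) ⊆ R ω})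
    (A : Finset ι) : Measurable (fun ω => ind (R ω) A) := by
  rw [ind_eq_indicator]
  exact measurable_const.indicator (hmeas A)

theorem YY_meas {R : Ω → Set ι} (hmeas : ∀ A : Finset ι, MeasurableSet {ω | (A : Set ι) ⊆ R ω})
    (T : Finset τ) (w : τ → ℝ) (S : τ → Finset ι) : Measurable (fun ω => YY T w S (R ω)) := by
  unfold YY
  exact Finset.measurable_fun_sum _ fun t _ => (ind_meas hmeas (S t)).const_mul (w t)

theorem integrable_aux (μ : Measure Ω) [IsProbabilityMeasure μ] {R : Ω → Set ι}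
    (hmeas : ∀ A : Finset ι, MeasurableSet {ω | (A : Set ι) ⊆ R ω})
    (T : Finset τ) (w : τ → ℝ) (S : τ → Finset ι) (hw : ∀ t ∈ T, 0 ≤ w t) (U : Finset ι) (k : ℕ) :
    Integrable (fun ω => ind (R ω) U * YY T w S (R ω) ^ k) μ := by
  refine Integrable.of_bound (C := (∑ t ∈ T, w t) ^ k)
    ((ind_meas hmeas U).mul ((YY_meas hmeas T w S).pow_const k)).aestronglyMeasurable ?_
  refine Filter.Eventually.of_forall fun ω => ?_
  have h1 := YY_nonneg hw S (R ω)
  rw [Real.norm_eq_abs, abs_of_nonneg (mul_nonneg (ind_nonneg _ _) (pow_nonneg h1 k))]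
  calc ind (R ω) U * YY T w S (R ω) ^ k ≤ 1 * (∑ t ∈ T, w t) ^ k :=
        mul_le_mul (ind_le_one _ _) (pow_le_pow_left₀ h1 (YY_le hw S (R ω)) k)
          (pow_nonneg h1 k) zero_le_one
    _ = _ := one_mul _

theorem moment_aux [DecidableEq ι] (μ : Measure Ω) [IsProbabilityMeasure μ] (R : Ω → Set ι)
    (hmeas : ∀ A : Finset ι, MeasurableSet {ω | (A : Set ι) ⊆ R ω}) (p : ι → ℝ)
    (hp : ∀ i, 0 ≤ p i)
    (hub : ∀ A : Finset ι, μ.real {ω | (A : Set ι) ⊆ R ω} ≤ ∏ i ∈ A, p i)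
    (T : Finset τ) (w : τ → ℝ) (S : τ → Finset ι) (hw : ∀ t ∈ T, 0 ≤ w t) (D : ℕ)
    (hS : ∀ t ∈ T, (S t).card ≤ D) (E0 M : ℝ) (hM0 : 0 ≤ M)
    (h0 : ∑ t ∈ T, w t * ∏ i ∈ S t, p i ≤ E0)
    (hM : ∀ A : Finset ι, A.Nonempty →
      ∑ t ∈ T.filter (fun t => A ⊆ S t), w t * ∏ i ∈ S t \ A, p i ≤ M) (k : ℕ) :
    ∀ U : Finset ι, ∫ ω, ind (R ω) U * YY T w S (R ω) ^ k ∂μ ≤
      (∏ i ∈ U, p i) * ∏ i ∈ Finset.range k, (E0 + ((U.card + D * i : ℕ) : ℝ) ^ D * M) := by
  have hE0 : 0 ≤ E0 := le_trans (Finset.sum_nonneg fun t ht =>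
    mul_nonneg (hw t ht) (Finset.prod_nonneg fun i _ => hp i)) h0
  induction k with
  | zero =>
    intro U
    simp only [pow_zero, mul_one, Finset.range_zero, Finset.prod_empty]
    rw [ind_eq_indicator, integral_indicator (hmeas U), setIntegral_const]
    simpa using hub U
  | succ k ih =>
    intro U
    have h1 : ∀ ω, ind (R ω) U * YY T w S (R ω) ^ (k + 1) =
        ∑ t ∈ T, w t * (ind (R ω) (U ∪ S t) * YY T w S (R ω) ^ k) := by
      intro ω
      rw [pow_succ', ← mul_assoc]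
      have h2 : ind (R ω) U * YY T w S (R ω) = ∑ t ∈ T, w t * ind (R ω) (U ∪ S t) := by
        unfold YY
        rw [Finset.mul_sum]
        refine Finset.sum_congr rfl fun t _ => ?_
        rw [← ind_union]
        ring
      rw [h2, Finset.sum_mul]
      refine Finset.sum_congr rfl fun t _ => ?_
      ring
    simp only [h1]
    rw [integral_finsetSum _ fun t _ =>
      (integrable_aux μ hmeas T w S hw (U ∪ S t) k).const_mul (w t)]
    simp only [integral_const_mul]
    set G := ∏ i ∈ Finset.range k, (E0 + ((U.card + D * (i + 1) : ℕ) : ℝ) ^ D * M) with hG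
    have hG0 : 0 ≤ G := Finset.prod_nonneg fun i _ => by positivity
    have h3 : ∀ t ∈ T, w t * ∫ ω, ind (R ω) (U ∪ S t) * YY T w S (R ω) ^ k ∂μ ≤
        (∏ i ∈ U, p i) * G * (w t * ∏ i ∈ S t \ U, p i) := by
      intro t ht
      have h4 := ih (U ∪ S t)
      have h5 : ∏ i ∈ Finset.range k, (E0 + (((U ∪ S t).card + D * i : ℕ) : ℝ) ^ D * M) ≤ G := by
        rw [hG]
        refine Finset.prod_le_prod (fun i _ => by positivity) fun i _ => ?_
        have h6 : (U ∪ S t).card + D * i ≤ U.card + D * (i + 1) := by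
          have h7 := Finset.card_union_le U (S t)
          have h8 := hS t ht
          rw [mul_add, mul_one]
          omega
        have h9 : (((U ∪ S t).card + D * i : ℕ) : ℝ) ≤ ((U.card + D * (i + 1) : ℕ) : ℝ) := by
          exact_mod_cast h6
        have h10 := mul_le_mul_of_nonneg_right (pow_le_pow_left₀ (Nat.cast_nonneg _) h9 D) hM0
        linarith
      have h11 : ∏ i ∈ U ∪ S t, p i = (∏ i ∈ U, p i) * ∏ i ∈ S t \ U, p i := by
        rw [← Finset.union_sdiff_self_eq_union, Finset.prod_union Finset.disjoint_sdiff]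
      have hPU : 0 ≤ ∏ i ∈ U, p i := Finset.prod_nonneg fun i _ => hp i
      have hPS : 0 ≤ ∏ i ∈ S t \ U, p i := Finset.prod_nonneg fun i _ => hp i
      calc w t * ∫ ω, ind (R ω) (U ∪ S t) * YY T w S (R ω) ^ k ∂μ
          ≤ w t * ((∏ i ∈ U ∪ S t, p i) *
            ∏ i ∈ Finset.range k, (E0 + (((U ∪ S t).card + D * i : ℕ) : ℝ) ^ D * M)) :=
            mul_le_mul_of_nonneg_left h4 (hw t ht)
        _ ≤ w t * ((∏ i ∈ U ∪ S t, p i) * G) := by
            apply mul_le_mul_of_nonneg_left _ (hw t ht)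
            exact mul_le_mul_of_nonneg_left h5 (Finset.prod_nonneg fun i _ => hp i)
        _ = (∏ i ∈ U, p i) * G * (w t * ∏ i ∈ S t \ U, p i) := by rw [h11]; ring
    refine (Finset.sum_le_sum h3).trans ?_
    rw [← Finset.mul_sum]
    have h12 := sum_sdiff_le T w S p hp hw D hS E0 M hM0 h0 hM U
    rw [Finset.prod_range_succ', mul_zero, add_zero, mul_assoc]
    apply mul_le_mul_of_nonneg_left _ (Finset.prod_nonneg fun i _ => hp i)
    exact mul_le_mul_of_nonneg_left h12 hG0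

/-- High moments of a nonnegative combination of the events `S t ⊆ R`. -/
theorem moment [DecidableEq ι] (μ : Measure Ω) [IsProbabilityMeasure μ] (R : Ω → Set ι)
    (hmeas : ∀ A : Finset ι, MeasurableSet {ω | (A : Set ι) ⊆ R ω}) (p : ι → ℝ)
    (hp : ∀ i, 0 ≤ p i)
    (hub : ∀ A : Finset ι, μ.real {ω | (A : Set ι) ⊆ R ω} ≤ ∏ i ∈ A, p i)
    (T : Finset τ) (w : τ → ℝ) (S : τ → Finset ι) (hw : ∀ t ∈ T, 0 ≤ w t) (D : ℕ)
    (hS : ∀ t ∈ T, (S t).card ≤ D) (E0 M : ℝ) (hM0 : 0 ≤ M)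
    (h0 : ∑ t ∈ T, w t * ∏ i ∈ S t, p i ≤ E0)
    (hM : ∀ A : Finset ι, A.Nonempty →
      ∑ t ∈ T.filter (fun t => A ⊆ S t), w t * ∏ i ∈ S t \ A, p i ≤ M) (k : ℕ) :
    ∫ ω, YY T w S (R ω) ^ k ∂μ ≤
      ∏ i ∈ Finset.range k, (E0 + ((D * i : ℕ) : ℝ) ^ D * M) := by
  have h := moment_aux μ R hmeas p hp hub T w S hw D hS E0 M hM0 h0 hM k ∅
  simpa [ind_empty] using h

/-- Upper tail. -/
theorem upper_tail [DecidableEq ι] (μ : Measure Ω) [IsProbabilityMeasure μ] (R : Ω → Set ι)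
    (hmeas : ∀ A : Finset ι, MeasurableSet {ω | (A : Set ι) ⊆ R ω}) (p : ι → ℝ)
    (hp : ∀ i, 0 ≤ p i)
    (hub : ∀ A : Finset ι, μ.real {ω | (A : Set ι) ⊆ R ω} ≤ ∏ i ∈ A, p i)
    (T : Finset τ) (w : τ → ℝ) (S : τ → Finset ι) (hw : ∀ t ∈ T, 0 ≤ w t) (D : ℕ)
    (hS : ∀ t ∈ T, (S t).card ≤ D) (E0 M : ℝ) (hM0 : 0 ≤ M)
    (h0 : ∑ t ∈ T, w t * ∏ i ∈ S t, p i ≤ E0)
    (hM : ∀ A : Finset ι, A.Nonempty →
      ∑ t ∈ T.filter (fun t => A ⊆ S t), w t * ∏ i ∈ S t \ A, p i ≤ M) (k : ℕ)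
    (l : ℝ) (hl : 0 < l) :
    μ.real {ω | l ≤ YY T w S (R ω)} ≤
      (∏ i ∈ Finset.range k, (E0 + ((D * i : ℕ) : ℝ) ^ D * M)) / l ^ k := by
  have h := moment μ R hmeas p hp hub T w S hw D hS E0 M hM0 h0 hM k
  have hint : Integrable (fun ω => YY T w S (R ω) ^ k) μ := by
    have := integrable_aux μ hmeas T w S hw ∅ k
    simpa [ind_empty] using this
  have h1 := mul_meas_ge_le_integral_of_nonneg (μ := μ) (f := fun ω => YY T w S (R ω) ^ k)
    (Filter.Eventually.of_forall fun ω => pow_nonneg (YY_nonneg hw S (R ω)) k) hint (l ^ k)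
  rw [le_div_iff₀ (pow_pos hl k), mul_comm]
  refine le_trans ?_ (h1.trans h)
  apply mul_le_mul_of_nonneg_left _ (pow_pos hl k).le
  refine measureReal_mono ?_ (measure_ne_top _ _)
  intro ω hω
  exact pow_le_pow_left₀ hl.le hω k

/-- Upper tail, simple form. -/
theorem upper_tail' [DecidableEq ι] (μ : Measure Ω) [IsProbabilityMeasure μ] (R : Ω → Set ι)
    (hmeas : ∀ A : Finset ι, MeasurableSet {ω | (A : Set ι) ⊆ R ω}) (p : ι → ℝ)
    (hp : ∀ i, 0 ≤ p i)
    (hub : ∀ A : Finset ι, μ.real {ω | (A : Set ι) ⊆ R ω} ≤ ∏ i ∈ A, p i)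
    (T : Finset τ) (w : τ → ℝ) (S : τ → Finset ι) (hw : ∀ t ∈ T, 0 ≤ w t) (D : ℕ)
    (hS : ∀ t ∈ T, (S t).card ≤ D) (L : ℝ)
    (hL : ∀ A : Finset ι,
      ∑ t ∈ T.filter (fun t => A ⊆ S t), w t * ∏ i ∈ S t \ A, p i ≤ L) (k : ℕ)
    (l : ℝ) (hl : 0 < l) :
    μ.real {ω | l ≤ YY T w S (R ω)} ≤ ((1 + ((D * k : ℕ) : ℝ) ^ D) * L / l) ^ k := by
  have hL0 : 0 ≤ L := le_trans (Finset.sum_nonneg fun t ht =>
    mul_nonneg (hw t (Finset.mem_filter.mp ht).1) (Finset.prod_nonneg fun i _ => hp i)) (hL ∅)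
  have h0 : ∑ t ∈ T, w t * ∏ i ∈ S t, p i ≤ L := by
    have := hL ∅
    simpa using this
  have h := upper_tail μ R hmeas p hp hub T w S hw D hS L L hL0 h0 (fun A _ => hL A) k l hl
  refine h.trans ?_
  rw [div_pow]
  apply div_le_div_of_nonneg_right _ (pow_pos hl k).le
  calc ∏ i ∈ Finset.range k, (L + ((D * i : ℕ) : ℝ) ^ D * L)
      ≤ ∏ _i ∈ Finset.range k, ((1 + ((D * k : ℕ) : ℝ) ^ D) * L) := by
        refine Finset.prod_le_prod (fun i _ => by positivity) fun i hi => ?_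
        have hik : ((D * i : ℕ) : ℝ) ≤ ((D * k : ℕ) : ℝ) := by
          exact_mod_cast Nat.mul_le_mul_left D (Finset.mem_range.mp hi).le
        have h1 := mul_le_mul_of_nonneg_right (pow_le_pow_left₀ (Nat.cast_nonneg _) hik D) hL0
        linarith
    _ = ((1 + ((D * k : ℕ) : ℝ) ^ D) * L) ^ k := by
        rw [Finset.prod_const, Finset.card_range]

/-! ### Lower tail -/

theorem mean [DecidableEq ι] (μ : Measure Ω) [IsProbabilityMeasure μ] (R : Ω → Set ι)
    (hmeas : ∀ A : Finset ι, MeasurableSet {ω | (A : Set ι) ⊆ R ω}) (p : ι → ℝ)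
    (hex : ∀ A : Finset ι, μ.real {ω | (A : Set ι) ⊆ R ω} = ∏ i ∈ A, p i)
    (T : Finset τ) (w : τ → ℝ) (S : τ → Finset ι) :
    ∫ ω, YY T w S (R ω) ∂μ = ∑ t ∈ T, w t * ∏ i ∈ S t, p i := by
  unfold YY
  rw [integral_finsetSum]
  · refine Finset.sum_congr rfl fun t _ => ?_
    rw [integral_const_mul, ← hex, ind_eq_indicator, integral_indicator (hmeas (S t)),
      setIntegral_const]
    simp
  · intro t _
    apply Integrable.const_mul
    rw [ind_eq_indicator]
    exact (integrable_const (1 : ℝ)).indicator (hmeas (S t))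

/-- Lower tail (Chebyshev). -/
theorem lower_tail [DecidableEq ι] (μ : Measure Ω) [IsProbabilityMeasure μ] (R : Ω → Set ι)
    (hmeas : ∀ A : Finset ι, MeasurableSet {ω | (A : Set ι) ⊆ R ω}) (p : ι → ℝ)
    (hp : ∀ i, 0 ≤ p i)
    (hex : ∀ A : Finset ι, μ.real {ω | (A : Set ι) ⊆ R ω} = ∏ i ∈ A, p i)
    (T : Finset τ) (w : τ → ℝ) (S : τ → Finset ι) (hw : ∀ t ∈ T, 0 ≤ w t) (D : ℕ) (hD : 1 ≤ D)
    (hS : ∀ t ∈ T, (S t).card ≤ D) (E M : ℝ) (hE : 0 < E) (hM0 : 0 ≤ M)
    (h0 : ∑ t ∈ T, w t * ∏ i ∈ S t, p i = E)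
    (hM : ∀ A : Finset ι, A.Nonempty →
      ∑ t ∈ T.filter (fun t => A ⊆ S t), w t * ∏ i ∈ S t \ A, p i ≤ M) :
    μ.real {ω | YY T w S (R ω) ≤ E / 2} ≤ 4 * (D : ℝ) ^ D * M / E := by
  have h2 := moment μ R hmeas p hp (fun A => (hex A).le) T w S hw D hS E M hM0 h0.le hM 2
  have hmean := mean μ R hmeas p hex T w S
  rw [h0] at hmean
  have hi1 : Integrable (fun ω => YY T w S (R ω)) μ := by
    have := integrable_aux μ hmeas T w S hw ∅ 1
    simpa [ind_empty] using this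
  have hi2 : Integrable (fun ω => YY T w S (R ω) ^ 2) μ := by
    have := integrable_aux μ hmeas T w S hw ∅ 2
    simpa [ind_empty] using this
  have h3 : ∏ i ∈ Finset.range 2, (E + ((D * i : ℕ) : ℝ) ^ D * M) = E * (E + (D : ℝ) ^ D * M) := by
    rw [Finset.prod_range_succ, Finset.prod_range_one]
    have : ((D * 0 : ℕ) : ℝ) ^ D = 0 := by
      rw [mul_zero, Nat.cast_zero]
      exact zero_pow (by omega)
    rw [this, zero_mul, add_zero, mul_one]
  rw [h3] at h2
  have hi3 : Integrable (fun ω => (YY T w S (R ω) - E) ^ 2) μ := by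
    have : (fun ω => (YY T w S (R ω) - E) ^ 2) =
        fun ω => YY T w S (R ω) ^ 2 - 2 * E * YY T w S (R ω) + E ^ 2 := by
      funext ω; ring
    rw [this]
    exact (hi2.sub (hi1.const_mul _)).add (integrable_const _)
  have hvar : ∫ ω, (YY T w S (R ω) - E) ^ 2 ∂μ ≤ E * ((D : ℝ) ^ D * M) := by
    have h4 : ∫ ω, (YY T w S (R ω) - E) ^ 2 ∂μ = ∫ ω, YY T w S (R ω) ^ 2 ∂μ - E ^ 2 := by
      have : (fun ω => (YY T w S (R ω) - E) ^ 2) =
          fun ω => YY T w S (R ω) ^ 2 - 2 * E * YY T w S (R ω) + E ^ 2 := by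
        funext ω; ring
      have e1 : ∫ ω, (YY T w S (R ω) ^ 2 - 2 * E * YY T w S (R ω) + E ^ 2) ∂μ =
          ∫ ω, (YY T w S (R ω) ^ 2 - 2 * E * YY T w S (R ω)) ∂μ + ∫ _ω, E ^ 2 ∂μ :=
        integral_add (hi2.sub (hi1.const_mul (2 * E))) (integrable_const _)
      have e2 : ∫ ω, (YY T w S (R ω) ^ 2 - 2 * E * YY T w S (R ω)) ∂μ =
          ∫ ω, YY T w S (R ω) ^ 2 ∂μ - ∫ ω, 2 * E * YY T w S (R ω) ∂μ :=
        integral_sub hi2 (hi1.const_mul (2 * E))
      rw [this, e1, e2, integral_const_mul, hmean]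
      simp
      ring
    rw [h4]
    linarith
  have h5 := mul_meas_ge_le_integral_of_nonneg (μ := μ) (f := fun ω => (YY T w S (R ω) - E) ^ 2)
    (Filter.Eventually.of_forall fun ω => sq_nonneg _) hi3 ((E / 2) ^ 2)
  have h6 : μ.real {ω | YY T w S (R ω) ≤ E / 2} ≤
      μ.real {ω | (E / 2) ^ 2 ≤ (YY T w S (R ω) - E) ^ 2} := by
    refine measureReal_mono ?_ (measure_ne_top _ _)
    intro ω hω
    simp only [Set.mem_ofPred_eq] at hω ⊢
    nlinarith
  rw [le_div_iff₀ hE]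
  have h7 := mul_le_mul_of_nonneg_left h6 (sq_nonneg (E / 2))
  have h8 : (E / 2) ^ 2 * μ.real {ω | YY T w S (R ω) ≤ E / 2} ≤ E * ((D : ℝ) ^ D * M) :=
    h7.trans (h5.trans hvar)
  have h9 : E / 4 * (E * μ.real {ω | YY T w S (R ω) ≤ E / 2}) ≤ E / 4 * (4 * ((D : ℝ) ^ D * M)) := by
    calc E / 4 * (E * μ.real {ω | YY T w S (R ω) ≤ E / 2}) =
          (E / 2) ^ 2 * μ.real {ω | YY T w S (R ω) ≤ E / 2} := by ring
      _ ≤ E * ((D : ℝ) ^ D * M) := h8
      _ = E / 4 * (4 * ((D : ℝ) ^ D * M)) := by ring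
  have h10 := le_of_mul_le_mul_left h9 (by positivity)
  linarith

/-! ### Independent copies -/

/-- The union of the copies. -/
def RU {h : ℕ} (R : Ω → Set ι) (ω : Fin h → Ω) : Set ι := ⋃ j, R (ω j)

/-- All the copies have a small sum: failure probability to the power `h`. -/
theorem copies_lower (μ : Measure Ω) [IsProbabilityMeasure μ] (R : Ω → Set ι)
    (T : Finset τ) (w : τ → ℝ) (S : τ → Finset ι) (h : ℕ) (c q : ℝ)
    (hq : μ.real {ω | YY T w S (R ω) ≤ c} ≤ q) :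
    (Measure.pi (fun _ : Fin h => μ)).real {ω | ∀ j, YY T w S (R (ω j)) ≤ c} ≤ q ^ h := by
  have h1 : {ω : Fin h → Ω | ∀ j, YY T w S (R (ω j)) ≤ c} =
      Set.pi Set.univ (fun _ : Fin h => {ω | YY T w S (R ω) ≤ c}) := by
    ext ω
    simp
  rw [h1, measureReal_def, Measure.pi_pi, ENNReal.toReal_prod]
  simp only [Finset.prod_const, Finset.card_univ, Fintype.card_fin]
  exact pow_le_pow_left₀ ENNReal.toReal_nonneg hq h

theorem copies_meas {h : ℕ} {R : Ω → Set ι}
    (hmeas : ∀ A : Finset ι, MeasurableSet {ω | (A : Set ι) ⊆ R ω}) (A : Finset ι) :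
    MeasurableSet {ω : Fin h → Ω | (A : Set ι) ⊆ RU R ω} := by
  classical
  have h1 : {ω : Fin h → Ω | (A : Set ι) ⊆ RU R ω} =
      ⋂ i ∈ A, ⋃ j : Fin h, (fun ω : Fin h → Ω => ω j) ⁻¹' {ω | (({i} : Finset ι) : Set ι) ⊆ R ω} := by
    ext ω
    simp only [Set.mem_ofPred_eq, Set.mem_iInter, Set.mem_iUnion, Set.mem_preimage,
      Finset.coe_singleton, Set.singleton_subset_iff, RU]
    constructor
    · intro h i hi
      have := h hi
      rwa [Set.mem_iUnion] at this
    · intro h i hi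
      rw [Set.mem_iUnion]
      exact h i hi
  rw [h1]
  refine Finset.measurableSet_biInter _ fun i _ => MeasurableSet.iUnion fun j => ?_
  exact (measurable_pi_apply j) (hmeas {i})

/-- The union of `h` copies satisfies the hypothesis of `moment` with `h * p i`. -/
theorem copies_upper [DecidableEq ι] (μ : Measure Ω) [IsProbabilityMeasure μ] (R : Ω → Set ι)
    (p : ι → ℝ)
    (hub : ∀ A : Finset ι, μ.real {ω | (A : Set ι) ⊆ R ω} ≤ ∏ i ∈ A, p i) (h : ℕ)
    (A : Finset ι) :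
    (Measure.pi (fun _ : Fin h => μ)).real {ω | (A : Set ι) ⊆ RU R ω} ≤ ∏ i ∈ A, (h * p i) := by
  classical
  -- union bound over the colourings
  have h1 : {ω : Fin h → Ω | (A : Set ι) ⊆ RU R ω} ⊆
      ⋃ c ∈ (Finset.univ : Finset (A → Fin h)), Set.pi Set.univ (fun j : Fin h =>
        {ω | (((A.attach.filter (fun i => c i = j)).map (Function.Embedding.subtype _) :
          Finset ι) : Set ι) ⊆ R ω}) := by
    intro ω hω
    have h2 : ∀ i : A, ∃ j : Fin h, (i : ι) ∈ R (ω j) := by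
      intro i
      have := hω i.2
      rwa [RU, Set.mem_iUnion] at this
    choose c hc using h2
    rw [Set.mem_iUnion₂]
    refine ⟨c, Finset.mem_univ _, ?_⟩
    rw [Set.mem_univ_pi]
    intro j i hi
    simp only [Finset.coe_map, Function.Embedding.subtype_apply, Finset.coe_filter,
      Finset.mem_attach, true_and, Set.mem_image, Set.mem_ofPred_eq] at hi
    obtain ⟨i', hi', rfl⟩ := hi
    rw [← hi']
    exact hc i'
  refine (measureReal_mono h1 (measure_ne_top _ _)).trans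
    ((measureReal_biUnion_finset_le _ _).trans ?_)
  have h3 : ∀ c : A → Fin h, (Measure.pi (fun _ : Fin h => μ)).real (Set.pi Set.univ
      (fun j : Fin h => {ω | (((A.attach.filter (fun i => c i = j)).map
        (Function.Embedding.subtype _) : Finset ι) : Set ι) ⊆ R ω})) ≤ ∏ i ∈ A, p i := by
    intro c
    rw [measureReal_def, Measure.pi_pi, ENNReal.toReal_prod]
    have h4 : ∀ j ∈ (Finset.univ : Finset (Fin h)), (μ {ω | (((A.attach.filter
        (fun i => c i = j)).map (Function.Embedding.subtype _) : Finset ι) : Set ι) ⊆ R ω}).toReal ≤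
        ∏ i ∈ A.attach.filter (fun i => c i = j), p i := by
      intro j _
      have := hub ((A.attach.filter (fun i => c i = j)).map (Function.Embedding.subtype _))
      rw [Finset.prod_map] at this
      exact this
    refine (Finset.prod_le_prod (fun _ _ => ENNReal.toReal_nonneg) h4).trans ?_
    rw [Finset.prod_fiberwise_of_maps_to (fun i _ => Finset.mem_univ (c i)),
      Finset.prod_attach A p]
  refine (Finset.sum_le_sum fun c _ => h3 c).trans ?_
  rw [Finset.sum_const, Finset.prod_mul_distrib, Finset.prod_const, nsmul_eq_mul]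
  simp

end general

/-! ### Existence -/

/-- If the failure probabilities add up to less than `1`, no failure occurs for some `ω`. -/
theorem exists_good {Ω κ : Type*} [MeasurableSpace Ω] [Countable κ] (μ : Measure Ω)
    [IsProbabilityMeasure μ] (F : κ → Set Ω) (b : κ → ℝ) (hb : Summable b)
    (hF : ∀ i, μ.real (F i) ≤ b i) (hs : ∑' i, b i < 1) : ∃ ω, ∀ i, ω ∉ F i := by
  by_contra hcon
  push Not at hcon
  have h1 : (Set.univ : Set Ω) ⊆ ⋃ i, F i := by
    intro ω _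
    obtain ⟨i, hi⟩ := hcon ω
    exact Set.mem_iUnion.mpr ⟨i, hi⟩
  have hb0 : ∀ i, 0 ≤ b i := fun i => measureReal_nonneg.trans (hF i)
  have h2 : μ (⋃ i, F i) ≤ ∑' i, ENNReal.ofReal (b i) := by
    refine (measure_iUnion_le _).trans (ENNReal.tsum_le_tsum fun i => ?_)
    rw [← ofReal_measureReal (measure_ne_top _ _)]
    exact ENNReal.ofReal_le_ofReal (hF i)
  rw [← ENNReal.ofReal_tsum_of_nonneg hb0 hb] at h2
  have h3 : μ (Set.univ : Set Ω) ≤ ENNReal.ofReal (∑' i, b i) := (measure_mono h1).trans h2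
  rw [measure_univ] at h3
  have h4 : ENNReal.ofReal (∑' i, b i) < 1 := by
    rw [ENNReal.ofReal_lt_one]
    exact hs
  exact absurd h3 (not_le.mpr h4)

/-! ### The Bernoulli random set -/

section bern

variable {ι : Type*}

/-- the set coded by `ω` -/
def rs (ω : ι → Bool) : Set ι := {i | ω i = true}

/-- independent coins with probabilities `p i` -/
noncomputable def bern (p : ι → unitInterval) : Measure (ι → Bool) :=
  Measure.infinitePi (fun i => ProbabilityTheory.bernoulliMeasure true false (p i))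

instance (p : ι → unitInterval) : IsProbabilityMeasure (bern p) := by
  unfold bern; infer_instance

theorem bern_meas (A : Finset ι) : MeasurableSet {ω : ι → Bool | (A : Set ι) ⊆ rs ω} := by
  have h1 : {ω : ι → Bool | (A : Set ι) ⊆ rs ω} = Set.pi (A : Set ι) (fun _ => {true}) := by
    ext ω
    simp only [Set.mem_ofPred_eq, Set.mem_pi, Set.mem_singleton_iff]
    rfl
  rw [h1]
  exact MeasurableSet.pi A.countable_toSet fun _ _ => measurableSet_singleton _

theorem bern_exact (p : ι → unitInterval) (A : Finset ι) :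
    (bern p).real {ω : ι → Bool | (A : Set ι) ⊆ rs ω} = ∏ i ∈ A, (p i : ℝ) := by
  have h1 : {ω : ι → Bool | (A : Set ι) ⊆ rs ω} = Set.pi (A : Set ι) (fun _ => {true}) := by
    ext ω
    simp only [Set.mem_ofPred_eq, Set.mem_pi, Set.mem_singleton_iff]
    rfl
  rw [h1, measureReal_def, bern, Measure.infinitePi_pi _ (fun _ _ => measurableSet_singleton _),
    ENNReal.toReal_prod]
  refine Finset.prod_congr rfl fun i _ => ?_
  classical
  rw [ProbabilityTheory.bernoulliMeasure_apply _ (measurableSet_singleton _)]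
  simp

end bern

end Pool.Agent.Helper33.KS
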