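import Pool.Agent.Helper33.KS.LBounds

/-!
# Prop `Light` (project KS, MP_768c9c_nt)
-/

set_option autoImplicit false

namespace Pool.Agent.Helper33.KS

open Finset Filter Topology
open Pool.Agent.Helper16.KS

/-! ### asymptotics -/

theorem eventually_pow4 (a ε : ℝ) (ha : 0 < a) (hε : 0 < ε) :
    ∃ K : ℕ, ∀ k : ℕ, K ≤ k → (k : ℝ) ^ 4 * (2 : ℝ) ^ (-(a * k)) ≤ ε := by
  have h1 : |(2 : ℝ) ^ (-a)| < 1 := by
    rw [abs_of_pos (two_pos _)]
    exact Real.rpow_lt_one_of_one_lt_of_neg (by norm_num) (by linarith)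
  have h2 := tendsto_pow_const_mul_const_pow_of_abs_lt_one 4 h1
  have h3 := (h2.eventually (gt_mem_nhds hε)).exists_forall_of_atTop
  obtain ⟨K, hK⟩ := h3
  refine ⟨K, fun k hk => ?_⟩
  have h4 := hK k hk
  have h5 : (2 : ℝ) ^ (-(a * k)) = ((2 : ℝ) ^ (-a)) ^ k := by
    rw [← Real.rpow_natCast, ← Real.rpow_mul (by norm_num)]
    congr 1; ring
  rw [h5]
  exact le_of_lt h4

theorem eventually_two (a ε : ℝ) (ha : 0 < a) (hε : 0 < ε) :
    ∃ K : ℕ, ∀ k : ℕ, K ≤ k → (2 : ℝ) ^ (-(a * k)) ≤ ε := by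
  obtain ⟨K, hK⟩ := eventually_pow4 a ε ha hε
  refine ⟨max K 1, fun k hk => ?_⟩
  have h1 := hK k (le_trans (le_max_left _ _) hk)
  have h2 : (1 : ℝ) ≤ (k : ℝ) ^ 4 := by
    have : (1 : ℝ) ≤ k := by exact_mod_cast (le_trans (le_max_right _ _) hk)
    exact one_le_pow₀ this
  have h3 := two_pos (-(a * k))
  nlinarith

theorem eventually_div (C ε : ℝ) (hε : 0 < ε) : ∃ K : ℕ, ∀ k : ℕ, K ≤ k → C / k ≤ ε := by
  obtain ⟨K, hK⟩ := exists_nat_gt (|C| / ε)
  refine ⟨max K 1, fun k hk => ?_⟩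
  have h1 : (K : ℝ) ≤ k := by exact_mod_cast (le_trans (le_max_left _ _) hk)
  have h2 : (0 : ℝ) < k := by exact_mod_cast (le_trans (le_max_right _ _) hk)
  rw [div_le_iff₀ h2]
  have h3 : |C| < K * ε := by rwa [div_lt_iff₀ hε] at hK
  nlinarith [le_abs_self C]

/-! ### the primes of a cell -/

open scoped Classical in
theorem ordw_cell (S : Sys) {k0 k j p : ℕ} (hk : k0 ≤ k) (hj : j < nc S.d k)
    (hp : p ∈ cell S.d k j) :
    S.ordw k0 p = if S.bad k j then 0 else S.G k / npr S.d k j := by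
  have h1 := cell_ge hp
  have h2 : 2 ^ k0 ≤ p := le_trans (Nat.pow_le_pow_right (by norm_num) hk) h1
  have h3 : 2 ^ (k0 - 1) ≤ 2 ^ k0 := Nat.pow_le_pow_right (by norm_num) (by omega)
  unfold Sys.ordw
  rw [if_neg (by omega), if_neg (by omega), cell_log S.d_pos hj hp, S.cell_idx hj hp]

open scoped Classical in
theorem sum_primes_cell (S : Sys) {k0 k j : ℕ} (hk : k0 ≤ k) (hj : j < nc S.d k) :
    ∑ p ∈ (cell S.d k j).filter Nat.Prime, 2 * S.ordw k0 p ≤
      (if S.bad k j then 0 else 2) * S.G k := by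
  have h1 : ∀ p ∈ (cell S.d k j).filter Nat.Prime, 2 * S.ordw k0 p =
      2 * (if S.bad k j then 0 else S.G k / npr S.d k j) := by
    intro p hp
    rw [ordw_cell S hk hj (Finset.mem_filter.mp hp).1]
  rw [Finset.sum_congr rfl h1, Finset.sum_const, nsmul_eq_mul]
  by_cases hb : S.bad k j
  · rw [if_pos hb, if_pos hb]; simp
  · rw [if_neg hb, if_neg hb]
    have h2 : (((cell S.d k j).filter Nat.Prime).card : ℝ) = (npr S.d k j : ℝ) := rfl
    rw [h2]
    have h3 := S.G_nonneg k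
    rcases Nat.eq_zero_or_pos (npr S.d k j) with h | h
    · rw [h]; simp; exact h3
    · have h4 : (npr S.d k j : ℝ) ≠ 0 := by exact_mod_cast h.ne'
      apply le_of_eq
      field_simp

/-! ### control primes of small blocks -/

theorem ctl_small (S : Sys) {k0 k1 q : ℕ} (hK : S.K ≤ k0) {R : Set ℕ}
    (h : S.ctl k0 k1 R q ≠ 0) : q < 2 ^ k1 := by
  unfold Sys.ctl at h
  obtain ⟨k, hk, h1⟩ := Finset.exists_ne_zero_of_sum_ne_zero h
  obtain ⟨j, hj, h2⟩ := Finset.exists_ne_zero_of_sum_ne_zero h1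
  unfold Sys.cw at h2
  obtain ⟨x, hx, _⟩ := Finset.exists_ne_zero_of_sum_ne_zero h2
  rw [Finset.mem_filter, S.mem_act] at hx
  rw [Finset.mem_Ico] at hk
  obtain ⟨-, -, -, h3, -, -, h4, -, -⟩ := S.cand_facts (by omega) hj hx.1.1
  have h5 : q ≤ x.1 * x.2 := by
    rw [hx.2]; exact Nat.le_mul_of_pos_right q (by omega)
  calc q ≤ x.1 * x.2 := h5
    _ < 2 ^ (k + 1) := h4
    _ ≤ 2 ^ k1 := Nat.pow_le_pow_right (by norm_num) (by omega)

theorem ordw6 {S : Sys} {C : ℝ} {k0 : ℕ} (hk0 : 2 ≤ k0)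
    (hO : ∀ p : ℕ, p.Prime → 0 ≤ S.ordw k0 p ∧
      S.ordw k0 p ≤ C * ((p : ℝ) ^ (S.s - 1) / Real.log p ^ 3))
    (hC : 6 * |C| / k0 ≤ 1 / 27) :
    ∀ p : ℕ, p.Prime → 3 * (2 * S.ordw k0 p) ≤ (p : ℝ) ^ (S.s - 1) := by
  intro p hp
  have hp0 : (0 : ℝ) < p := by exact_mod_cast hp.pos
  by_cases hlt : p < 2 ^ (k0 - 1)
  · have : S.ordw k0 p = 0 := by unfold Sys.ordw; rw [if_pos hlt]
    rw [this]
    have : (0 : ℝ) ≤ (p : ℝ) ^ (S.s - 1) := by positivity
    linarith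
  · push Not at hlt
    have hk0' : (2 : ℝ) ≤ k0 := by exact_mod_cast hk0
    have h1 : (k0 : ℝ) / 3 ≤ Real.log p := by
      have h2 : (2 : ℝ) ^ ((k0 : ℝ) / 2) ≤ p := by
        calc (2 : ℝ) ^ ((k0 : ℝ) / 2) ≤ (2 : ℝ) ^ ((k0 - 1 : ℕ) : ℝ) := by
              apply two_le
              rw [Nat.cast_sub (by omega)]
              push_cast; linarith
          _ = (2 : ℝ) ^ (k0 - 1) := Real.rpow_natCast _ _
          _ ≤ p := by exact_mod_cast hlt
      have h3 : Real.log ((2 : ℝ) ^ ((k0 : ℝ) / 2)) ≤ Real.log p :=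
        Real.log_le_log (two_pos _) h2
      rw [Real.log_rpow (by norm_num)] at h3
      have := Real.log_two_gt_d9
      nlinarith
    have h4 : (k0 : ℝ) / 27 ≤ Real.log p ^ 3 := by
      have h5 : ((k0 : ℝ) / 3) ^ 3 ≤ Real.log p ^ 3 := pow_le_pow_left₀ (by positivity) h1 3
      have h6 : (k0 : ℝ) / 27 ≤ ((k0 : ℝ) / 3) ^ 3 := by
        have : (1 : ℝ) ≤ (k0 : ℝ) ^ 2 := one_le_pow₀ (by linarith)
        have : (k0 : ℝ) ≤ (k0 : ℝ) ^ 3 := by nlinarith
        rw [div_pow]; norm_num; linarith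
      linarith
    have hlogpos : 0 < Real.log p ^ 3 := lt_of_lt_of_le (by positivity) h4
    have h7 : 6 * |C| ≤ Real.log p ^ 3 := by
      rw [div_le_iff₀ (by linarith)] at hC
      linarith
    have h8 := (hO p hp).2
    have h9 : (0 : ℝ) ≤ (p : ℝ) ^ (S.s - 1) := by positivity
    calc 3 * (2 * S.ordw k0 p) ≤ 6 * (C * ((p : ℝ) ^ (S.s - 1) / Real.log p ^ 3)) := by linarith
      _ = 6 * C / Real.log p ^ 3 * (p : ℝ) ^ (S.s - 1) := by ring
      _ ≤ 1 * (p : ℝ) ^ (S.s - 1) := by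
          apply mul_le_mul_of_nonneg_right _ h9
          rw [div_le_one hlogpos]
          nlinarith [le_abs_self C]
      _ = _ := one_mul _

/-- exp bound -/
theorem exp_sub_one_le {x : ℝ} (h0 : 0 ≤ x) (h1 : x ≤ 1 / 2) : Real.exp x - 1 ≤ 2 * x := by
  have h2 := Real.one_sub_le_exp_neg x
  have h3 : Real.exp x * Real.exp (-x) = 1 := by rw [← Real.exp_add]; simp
  have h4 := Real.exp_pos x
  have h5 : Real.exp x * (1 - x) ≤ 1 := by
    calc Real.exp x * (1 - x) ≤ Real.exp x * Real.exp (-x) :=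
          mul_le_mul_of_nonneg_left h2 h4.le
      _ = 1 := h3
  nlinarith

/-- mass of the small cofactors -/
theorem mass_small (S : Sys) {k0 : ℕ} {R : Set ℕ} (hG : S.Good k0 R) (κ : ℕ)
    (hR : ∀ T : Finset ℕ, (∀ n ∈ T, 2 ≤ n) →
      ∑ n ∈ T, CM (fun p => 6 * S.ctl k0 (min (top p) κ) R p) n * (n : ℝ) ^ (-S.s + S.c / 10) ≤
        (2 : ℝ) ^ (-(S.c / 20) * (k0 : ℝ)))
    (hμ : (2 : ℝ) ^ (-(S.c / 20) * (k0 : ℝ)) + 3 * (2 : ℝ) ^ (-(S.tau / 10) * (k0 : ℝ)) ≤ 1 / 4)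
    (B : ℕ) :
    ∑ t ∈ Finset.Ico 2 B, cm (fun p => 3 * (2 * S.ctl k0 (min (top p) κ) R p) + 3 * S.bR R p) t *
      (t : ℝ) ^ (-S.s) ≤
    4 * ((2 : ℝ) ^ (-(S.c / 20) * (k0 : ℝ)) + 3 * (2 : ℝ) ^ (-(S.tau / 10) * (k0 : ℝ))) := by
  classical
  set μ := (2 : ℝ) ^ (-(S.c / 20) * (k0 : ℝ)) + 3 * (2 : ℝ) ^ (-(S.tau / 10) * (k0 : ℝ)) with hμd
  have hμ0 : 0 ≤ μ := by
    have h1 := two_pos (-(S.c / 20) * (k0 : ℝ))
    have h2 := two_pos (-(S.tau / 10) * (k0 : ℝ))
    rw [hμd]; linarith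
  set F : ℕ → ℝ := fun p => (3 * (2 * S.ctl k0 (min (top p) κ) R p) + 3 * S.bR R p) *
    (p : ℝ) ^ (-S.s) with hF
  have hF0 : ∀ p, p.Prime → 0 ≤ F p := by
    intro p _
    have h1 := S.ctl_nonneg k0 (min (top p) κ) R p
    have h2 := S.bR_nonneg R p
    simp only [hF]
    positivity
  have hsum : ∀ N : ℕ, ∑ p ∈ (Finset.Icc 1 N).filter Nat.Prime, F p ≤ μ := by
    intro N
    have h1 : ∑ p ∈ (Finset.Icc 1 N).filter Nat.Prime,
        6 * S.ctl k0 (min (top p) κ) R p * (p : ℝ) ^ (-S.s) ≤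
        (2 : ℝ) ^ (-(S.c / 20) * (k0 : ℝ)) := by
      refine le_trans (Finset.sum_le_sum fun p hp => ?_) (hR ((Finset.Icc 1 N).filter Nat.Prime)
        (fun n hn => (Finset.mem_filter.mp hn).2.two_le))
      have hpp := (Finset.mem_filter.mp hp).2
      rw [CM_prime _ hpp]
      have h2 : (1 : ℝ) ≤ p := by exact_mod_cast hpp.pos
      apply mul_le_mul_of_nonneg_left
      · apply Real.rpow_le_rpow_of_exponent_le h2
        have := S.c_pos
        linarith
      · have := S.ctl_nonneg k0 (min (top p) κ) R p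
        positivity
    have h3 : ∑ p ∈ (Finset.Icc 1 N).filter Nat.Prime, S.bR R p * (p : ℝ) ^ (-S.s) ≤
        (2 : ℝ) ^ (-(S.tau / 10) * (k0 : ℝ)) := by
      have h4 := hG.massR (((Finset.Icc 1 N).filter Nat.Prime).filter (fun p => p ∈ R))
        (fun r hr => (Finset.mem_filter.mp hr).2)
      refine le_trans ?_ h4
      rw [Finset.sum_filter (fun p => p ∈ R)]
      refine Finset.sum_le_sum fun p hp => ?_
      have hpp := (Finset.mem_filter.mp hp).2
      unfold Sys.bR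
      by_cases hpR : p ∈ R
      · rw [if_pos hpR, if_pos hpR]
        have h5 : 0 ≤ S.base p * (p : ℝ) ^ (-S.s) := mul_nonneg (S.base_nonneg p) (by positivity)
        have h6 : (1 : ℝ) ≤ (1 + Real.log p) ^ 2 := by
          have : 0 ≤ Real.log p := Real.log_nonneg (by exact_mod_cast hpp.one_lt.le)
          nlinarith
        exact le_mul_of_one_le_right h5 h6
      · rw [if_neg hpR, if_neg hpR, zero_mul]
    have h7 : ∑ p ∈ (Finset.Icc 1 N).filter Nat.Prime, F p =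
        ∑ p ∈ (Finset.Icc 1 N).filter Nat.Prime,
          6 * S.ctl k0 (min (top p) κ) R p * (p : ℝ) ^ (-S.s) +
        3 * ∑ p ∈ (Finset.Icc 1 N).filter Nat.Prime, S.bR R p * (p : ℝ) ^ (-S.s) := by
      rw [Finset.mul_sum, ← Finset.sum_add_distrib]
      refine Finset.sum_congr rfl fun p _ => ?_
      simp only [hF]; ring
    rw [h7, hμd]
    linarith
  have hF2 : ∀ p, p.Prime → F p ≤ 1 / 2 := by
    intro p hp
    have h1 := hsum p
    have h2 : F p ≤ ∑ q ∈ (Finset.Icc 1 p).filter Nat.Prime, F q :=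
      Finset.single_le_sum (f := F) (fun q hq => hF0 q (Finset.mem_filter.mp hq).2)
        (Finset.mem_filter.mpr ⟨Finset.mem_Icc.mpr ⟨hp.pos, le_rfl⟩, hp⟩)
    linarith
  have h1 : ∑ t ∈ Finset.Ico 2 B,
      cm (fun p => 3 * (2 * S.ctl k0 (min (top p) κ) R p) + 3 * S.bR R p) t * (t : ℝ) ^ (-S.s) =
      ∑ t ∈ Finset.Ico 2 B, cm F t := by
    refine Finset.sum_congr rfl fun t ht => ?_
    have ht0 : t ≠ 0 := by have := (Finset.mem_Ico.mp ht).1; omega
    rw [hF, cm_mul_fun (fun p => 3 * (2 * S.ctl k0 (min (top p) κ) R p) + 3 * S.bR R p)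
      (fun p => (p : ℝ) ^ (-S.s)), cm_rpow _ ht0]
  rw [h1]
  have h2 : ∑ t ∈ Finset.Ico 2 B, cm F t ≤ ∑ t ∈ Finset.Icc 2 B, cm F t :=
    Finset.sum_le_sum_of_subset_of_nonneg
      (fun x hx => by rw [Finset.mem_Ico] at hx; rw [Finset.mem_Icc]; omega)
      (fun x _ _ => cm_nonneg hF0 x)
  have h3 := sum_cm_le' hF0 hF2 B
  have h4 := hsum B
  have h5 : Real.exp (2 * ∑ p ∈ (Finset.Icc 1 B).filter Nat.Prime, F p) ≤ Real.exp (2 * μ) :=
    Real.exp_le_exp.mpr (by linarith)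
  have h6 := exp_sub_one_le (x := 2 * μ) (by linarith) (by linarith)
  linarith

/-- **Prop `Light`** -/
theorem light (hOW : OrdWin) (hRk : Rank) (hWp : WpLe) (hOr : OrdLe) : Light := by
  classical
  intro S
  obtain ⟨C0, K1, hO⟩ := hOW S
  obtain ⟨K2, hR⟩ := hRk S
  obtain ⟨K3, hW⟩ := hWp S
  obtain ⟨C4, K4, hOrd⟩ := hOr S
  set C := |C0| with hC
  have hc := S.c_pos
  have hd := S.d_pos
  have hd' := S.d_le'
  have ht := S.tau_pos
  have ht' := S.tau_le
  have hcd : 0 < S.c * S.d := mul_pos hc hd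
  -- thresholds
  obtain ⟨K5, hK5⟩ := eventually_div (20 : ℝ) (S.tau / 100) (by positivity)
  obtain ⟨K6, hK6⟩ := eventually_div (12 : ℝ) S.d hd
  obtain ⟨K7, hK7⟩ := eventually_pow4 (S.c * S.d / 20) (1 / 800) (by positivity) (by norm_num)
  obtain ⟨K8, hK8⟩ := eventually_pow4 (S.tau / 50) (1 / 1600) (by positivity) (by norm_num)
  obtain ⟨K9, hK9⟩ := eventually_two (S.c / 20) (min (1 / 8) (1 / (160000 * (C + 1))))
    (by positivity) (by positivity)
  obtain ⟨K10, hK10⟩ := eventually_two (S.tau / 10) (min (1 / 24) (1 / (480000 * (C + 1))))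
    (by positivity) (by positivity)
  obtain ⟨K11, hK11⟩ := eventually_div (200 * C) (1 / 100) (by norm_num)
  obtain ⟨K12, hK12⟩ := eventually_div (6 * |C4|) (1 / 27) (by norm_num)
  refine ⟨K1 + K2 + K3 + K4 + K5 + K6 + K7 + K8 + K9 + K10 + K11 + K12 + S.K + 100, ?_⟩
  intro k0 hk0 R hG k hk j hj
  have hk0' : 100 ≤ k0 := by omega
  have hk100 : 100 ≤ k := by omega
  have hkR : (100 : ℝ) ≤ k := by exact_mod_cast hk100
  have hk0R : (100 : ℝ) ≤ k0 := by exact_mod_cast hk0'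
  have hkk0 : (k0 : ℝ) ≤ k := by exact_mod_cast hk
  have hdk : 12 ≤ S.d * k := by
    have h1 := hK6 k (by omega)
    rw [div_le_iff₀ (by linarith)] at h1
    linarith
  set κ := ⌈S.kap * k⌉₊ with hκ
  set V0 := (2 : ℝ) ^ (S.d * (k : ℝ)) with hV0
  set V1 := (2 : ℝ) ^ (1.2 * S.d * (k : ℝ)) with hV1
  set E0 := (2 : ℝ) ^ ((k : ℝ) / 8) with hE0
  set A := 2 ^ k + j * 2 ^ ec S.d k with hA
  set B := 2 ^ k + (j + 1) * 2 ^ ec S.d k with hB
  have hV01 : V0 ≤ V1 := two_le (by nlinarith)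
  have hV0g : (2 : ℝ) ≤ V0 := by
    have : (2 : ℝ) ^ (1 : ℝ) ≤ V0 := two_le (by linarith)
    simpa using this
  have hE0g : (1 : ℝ) < E0 := Real.one_lt_rpow (by norm_num) (by positivity)
  have hRank := hR k0 (by omega) R hG
  have hWpF := hW k0 (by omega) R hG
  have hOd := hOrd k0 (by omega)
  have hctl0 : ∀ p, 0 ≤ S.ctl k0 (min (top p) κ) R p := fun p => S.ctl_nonneg _ _ _ _
  -- the main splitting
  have hmain := light_sum (al := fun p => 2 * S.ordw k0 p) (rb := S.bR R)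
    (ga := fun p => 2 * S.ctl k0 (min (top p) κ) R p) (ft := fun p => 3 * S.Fh k0 R p)
    (fun p _ => by have := S.ordw_nonneg k0 p; positivity) (fun p _ => S.bR_nonneg R p)
    (fun p _ => by have := hctl0 p; positivity)
    (by
      intro p hp
      have h1 := (hWpF p hp).2
      have h2 := S.Wl_le_Wp k0 R k p
      have h3 : S.Wl k0 R k p = S.bR R p + 2 * S.ordw k0 p +
        2 * S.ctl k0 (min (top p) κ) R p := rfl
      linarith)
    (V0 := V0) (V1 := V1) (E0 := E0) (by linarith) hV01 (by linarith) hE0g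
    (by
      intro p hp hne
      have hne' : S.ctl k0 (min (top p) κ) R p ≠ 0 := fun h => hne (by rw [h, mul_zero])
      have h1 : p < 2 ^ κ := lt_of_lt_of_le (ctl_small S (by omega) hne')
        (Nat.pow_le_pow_right (by norm_num) (min_le_right _ _))
      have h2 : (p : ℝ) ≤ (2 : ℝ) ^ (κ : ℝ) := by
        rw [Real.rpow_natCast]; exact_mod_cast h1.le
      have h3 : (κ : ℝ) ≤ S.d / 10 * k + 1 := by
        have : (κ : ℝ) < S.kap * k + 1 := Nat.ceil_lt_add_one (by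
          unfold Sys.kap; positivity)
        unfold Sys.kap at this
        linarith
      calc (p : ℝ) * V0 ≤ (2 : ℝ) ^ (κ : ℝ) * V0 :=
            mul_le_mul_of_nonneg_right h2 (by linarith)
        _ = (2 : ℝ) ^ ((κ : ℝ) + S.d * (k : ℝ)) := by rw [hV0, ← Real.rpow_add (by norm_num)]
        _ ≤ V1 := two_le (by nlinarith))
    (A := A) (B := B) (by
      have : 0 < 2 ^ k := by positivity
      omega)
    (S.G k) S.s
    (8 * (k : ℝ) ^ 4 * (2 : ℝ) ^ (7 * S.tau * k) * (2 : ℝ) ^ (20 * (k : ℝ) / k0))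
    (8 * (k : ℝ) ^ 4 * (2 : ℝ) ^ (-(S.tau / 25) * k) * (2 : ℝ) ^ (20 * (k : ℝ) / k0))
    (200 * C) (mul_nonneg (S.G_nonneg k) (by positivity))
    (fun v hv _ hv1 => win_crude S hG (by omega) hk100 (by linarith) hk hj hv hv1)
    (fun v hv hv1 => win_rpart S hG (ordw6 (by omega) hOd (hK12 k0 (by omega))) (by omega) hk100
      (by linarith) hk hj hv hv1.le)
    (fun t ht1 ht2 => win_ord S (C := C) (fun x h h1 h2 h3 => by
        have h4 := (hO k0 (by omega) x h h1 h2 h3).1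
        refine h4.trans ?_
        apply mul_le_mul_of_nonneg_right (le_abs_self C0)
        have : (0 : ℝ) < x := by
          have : 0 < x := by omega
          exact_mod_cast this
        have : 0 ≤ Real.log x := Real.log_nonneg (by exact_mod_cast (show 1 ≤ x by omega))
        positivity) (abs_nonneg _) hk100 hj ht1 (by
        refine ht2.le.trans ?_
        rw [hV1, hE0, ← Real.rpow_add (by norm_num)]
        apply two_le
        nlinarith))
  -- the masses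
  set M4 := ∑ v ∈ (Finset.Ico 1 B).filter (fun v : ℕ => V0 ≤ (v : ℝ) ∧ (v : ℝ) ≤ V1),
        cm (fun p => 3 * (2 * S.ctl k0 (min (top p) κ) R p)) v * (v : ℝ) ^ (-S.s) with hM4
  set M5 := ∑ v ∈ (Finset.Ico 1 B).filter (fun v : ℕ => (v : ℝ) < V1),
        cm (fun p => 3 * (2 * S.ctl k0 (min (top p) κ) R p)) v * (v : ℝ) ^ (-S.s) with hM5
  set M6 := ∑ t ∈ Finset.Ico 2 B,
    cm (fun p => 3 * (2 * S.ctl k0 (min (top p) κ) R p) + 3 * S.bR R p) t * (t : ℝ) ^ (-S.s)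
    with hM6
  have hfun : (fun p => 3 * (2 * S.ctl k0 (min (top p) κ) R p)) =
      fun p => 6 * S.ctl k0 (min (top p) κ) R p := by funext p; ring
  have hcm6 : ∀ n : ℕ, 0 ≤ cm (fun p => 6 * S.ctl k0 (min (top p) κ) R p) n := fun n =>
    cm_nonneg (fun p _ => by have := hctl0 p; positivity) n
  have hrank1 : (2 : ℝ) ^ (-(S.c / 20) * (k0 : ℝ)) ≤ 1 :=
    Real.rpow_le_one_of_one_le_of_nonpos (by norm_num) (by
      have : 0 ≤ S.c / 20 * (k0 : ℝ) := by positivity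
      linarith)
  have bM4 : M4 ≤ (2 : ℝ) ^ (-(S.c * S.d / 10) * (k : ℝ)) := by
    have h1 := hRank ((Finset.Ico 1 B).filter (fun v : ℕ => V0 ≤ (v : ℝ) ∧ (v : ℝ) ≤ V1))
      (fun n hn => by
        have h2 := (Finset.mem_filter.mp hn).2.1
        have h3 : (2 : ℝ) ≤ n := hV0g.trans h2
        exact_mod_cast h3) κ
    have h4 : M4 ≤ V0 ^ (-(S.c / 10)) *
        ∑ n ∈ (Finset.Ico 1 B).filter (fun v : ℕ => V0 ≤ (v : ℝ) ∧ (v : ℝ) ≤ V1),
          CM (fun p => 6 * S.ctl k0 (min (top p) κ) R p) n * (n : ℝ) ^ (-S.s + S.c / 10) := by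
      rw [hM4, Finset.mul_sum, hfun]
      refine Finset.sum_le_sum fun v hv => ?_
      have hv0 : v ≠ 0 := by
        have := (Finset.mem_Ico.mp (Finset.mem_filter.mp hv).1).1; omega
      have hvV := (Finset.mem_filter.mp hv).2.1
      have hvp : (0 : ℝ) < v := by exact_mod_cast Nat.pos_of_ne_zero hv0
      rw [CM_eq_cm _ hv0]
      have h5 : (v : ℝ) ^ (-S.s) = (v : ℝ) ^ (-S.s + S.c / 10) * (v : ℝ) ^ (-(S.c / 10)) := by
        rw [← Real.rpow_add hvp]; congr 1; ring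
      have h6 : (v : ℝ) ^ (-(S.c / 10)) ≤ V0 ^ (-(S.c / 10)) :=
        Real.rpow_le_rpow_of_nonpos (by linarith) hvV (by linarith)
      rw [h5]
      have h7 : 0 ≤ cm (fun p => 6 * S.ctl k0 (min (top p) κ) R p) v *
          (v : ℝ) ^ (-S.s + S.c / 10) := mul_nonneg (hcm6 v) (by positivity)
      calc _ = cm (fun p => 6 * S.ctl k0 (min (top p) κ) R p) v *
          (v : ℝ) ^ (-S.s + S.c / 10) * (v : ℝ) ^ (-(S.c / 10)) := by ring
        _ ≤ cm (fun p => 6 * S.ctl k0 (min (top p) κ) R p) v *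
          (v : ℝ) ^ (-S.s + S.c / 10) * V0 ^ (-(S.c / 10)) := mul_le_mul_of_nonneg_left h6 h7
        _ = _ := by ring
    have h8 : V0 ^ (-(S.c / 10)) = (2 : ℝ) ^ (-(S.c * S.d / 10) * (k : ℝ)) := by
      rw [hV0, ← Real.rpow_mul (by norm_num)]; congr 1; ring
    rw [h8] at h4
    have h9 := two_pos (-(S.c * S.d / 10) * (k : ℝ))
    nlinarith
  have bM5 : M5 ≤ 2 := by
    have h1 := hRank (((Finset.Ico 1 B).filter (fun v : ℕ => (v : ℝ) < V1)).filter
      (fun n => 2 ≤ n)) (fun n hn => (Finset.mem_filter.mp hn).2) κ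
    have h2 : ∀ v ∈ (Finset.Ico 1 B).filter (fun v : ℕ => (v : ℝ) < V1),
        cm (fun p => 6 * S.ctl k0 (min (top p) κ) R p) v * (v : ℝ) ^ (-S.s) ≤
        (if v = 1 then 1 else 0) + (if 2 ≤ v then
          CM (fun p => 6 * S.ctl k0 (min (top p) κ) R p) v * (v : ℝ) ^ (-S.s + S.c / 10)
          else 0) := by
      intro v hv
      have hv1 := (Finset.mem_Ico.mp (Finset.mem_filter.mp hv).1).1
      by_cases h3 : v = 1
      · rw [h3, map_one]; simp
      · rw [if_neg h3, if_pos (by omega), zero_add, CM_eq_cm _ (by omega)]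
        apply mul_le_mul_of_nonneg_left _ (hcm6 v)
        apply Real.rpow_le_rpow_of_exponent_le (by exact_mod_cast hv1)
        linarith
    rw [hM5, hfun]
    refine (Finset.sum_le_sum h2).trans ?_
    rw [Finset.sum_add_distrib, ← Finset.sum_filter (fun n : ℕ => 2 ≤ n)]
    have h4 : ∑ v ∈ (Finset.Ico 1 B).filter (fun v : ℕ => (v : ℝ) < V1),
        (if v = 1 then (1 : ℝ) else 0) ≤ 1 := by
      rw [Finset.sum_ite_eq']
      split_ifs <;> norm_num
    linarith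
  set μ := (2 : ℝ) ^ (-(S.c / 20) * (k0 : ℝ)) + 3 * (2 : ℝ) ^ (-(S.tau / 10) * (k0 : ℝ)) with hμ
  have hC0 : 0 ≤ C := abs_nonneg _
  have hμ1 : μ ≤ 1 / 4 ∧ μ ≤ 1 / (80000 * (C + 1)) := by
    have h1 := hK9 k0 (by omega)
    have h2 := hK10 k0 (by omega)
    have e1 : -(S.c / 20 * (k0 : ℝ)) = -(S.c / 20) * (k0 : ℝ) := by ring
    have e2 : -(S.tau / 10 * (k0 : ℝ)) = -(S.tau / 10) * (k0 : ℝ) := by ring
    rw [e1] at h1
    rw [e2] at h2
    constructor
    · have h3 := h1.trans (min_le_left _ _)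
      have h4 := h2.trans (min_le_left _ _)
      rw [hμ]; linarith
    · have h3 := h1.trans (min_le_right _ _)
      have h4 := h2.trans (min_le_right _ _)
      have h5 : 1 / (160000 * (C + 1)) + 3 * (1 / (480000 * (C + 1))) = 1 / (80000 * (C + 1)) := by
        field_simp; ring
      rw [hμ]; linarith
  have bM6 : M6 ≤ 4 * μ := mass_small S hG κ (fun T hT => hRank T hT κ) hμ1.1 B
  have hμ0 : 0 ≤ μ := by
    have h1 := two_pos (-(S.c / 20) * (k0 : ℝ))
    have h2 := two_pos (-(S.tau / 10) * (k0 : ℝ))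
    rw [hμ]; linarith
  -- numerical estimates
  have hk20 : 20 * (k : ℝ) / k0 ≤ S.tau / 100 * k := by
    have h1 := hK5 k0 (by omega)
    calc 20 * (k : ℝ) / k0 = 20 / k0 * k := by ring
      _ ≤ _ := mul_le_mul_of_nonneg_right h1 (by linarith)
  have hM40 : 0 ≤ M4 := Finset.sum_nonneg fun v _ => mul_nonneg (by rw [hfun]; exact hcm6 v)
    (by positivity)
  have hM50 : 0 ≤ M5 := Finset.sum_nonneg fun v _ => mul_nonneg (by rw [hfun]; exact hcm6 v)
    (by positivity)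
  have b4 : (8 * (k : ℝ) ^ 4 * (2 : ℝ) ^ (7 * S.tau * k) * (2 : ℝ) ^ (20 * (k : ℝ) / k0)) * M4 ≤
      1 / 100 := by
    have h1 := hK7 k (by omega)
    calc _ ≤ (8 * (k : ℝ) ^ 4 * (2 : ℝ) ^ (7 * S.tau * k) * (2 : ℝ) ^ (S.tau / 100 * k)) *
          (2 : ℝ) ^ (-(S.c * S.d / 10) * (k : ℝ)) := by
          apply mul_le_mul _ bM4 hM40 (by positivity)
          exact mul_le_mul_of_nonneg_left (two_le hk20) (by positivity)
      _ = 8 * ((k : ℝ) ^ 4 * (2 : ℝ) ^ (7 * S.tau * k + S.tau / 100 * k +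
          -(S.c * S.d / 10) * (k : ℝ))) := by
          rw [Real.rpow_add (by norm_num), Real.rpow_add (by norm_num)]; ring
      _ ≤ 8 * ((k : ℝ) ^ 4 * (2 : ℝ) ^ (-(S.c * S.d / 20 * k))) := by
          apply mul_le_mul_of_nonneg_left _ (by norm_num)
          apply mul_le_mul_of_nonneg_left _ (by positivity)
          apply two_le
          have h2 : 7 * S.tau + S.tau / 100 - S.c * S.d / 10 ≤ -(S.c * S.d / 20) := by
            have : S.c * S.d / 10 ^ 5 ≤ S.c * S.d / 200 :=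
              div_le_div_of_nonneg_left hcd.le (by norm_num) (by norm_num)
            linarith
          have h3 := mul_le_mul_of_nonneg_right h2 (show (0 : ℝ) ≤ k by linarith)
          linarith
      _ ≤ _ := by linarith
  have b5 : (8 * (k : ℝ) ^ 4 * (2 : ℝ) ^ (-(S.tau / 25) * k) * (2 : ℝ) ^ (20 * (k : ℝ) / k0)) * M5 ≤
      1 / 100 := by
    have h1 := hK8 k (by omega)
    calc _ ≤ (8 * (k : ℝ) ^ 4 * (2 : ℝ) ^ (-(S.tau / 25) * k) * (2 : ℝ) ^ (S.tau / 100 * k)) *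
          2 := by
          apply mul_le_mul _ bM5 hM50 (by positivity)
          exact mul_le_mul_of_nonneg_left (two_le hk20) (by positivity)
      _ = 16 * ((k : ℝ) ^ 4 * (2 : ℝ) ^ (-(S.tau / 25) * k + S.tau / 100 * k)) := by
          rw [Real.rpow_add (by norm_num)]; ring
      _ ≤ 16 * ((k : ℝ) ^ 4 * (2 : ℝ) ^ (-(S.tau / 50 * k))) := by
          apply mul_le_mul_of_nonneg_left _ (by norm_num)
          apply mul_le_mul_of_nonneg_left _ (by positivity)
          apply two_le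
          nlinarith
      _ ≤ _ := by linarith
  have b6 : 200 * C * M6 ≤ 1 / 100 := by
    have h1 : 200 * C * M6 ≤ 200 * C * (4 * (1 / (80000 * (C + 1)))) := by
      apply mul_le_mul_of_nonneg_left _ (by positivity)
      linarith [hμ1.2]
    have h2 : 200 * C * (4 * (1 / (80000 * (C + 1)))) = 1 / 100 * (C / (C + 1)) := by
      field_simp; ring
    have h3 : C / (C + 1) ≤ 1 := by
      rw [div_le_one (by linarith)]; linarith
    rw [h2] at h1
    nlinarith
  have b7 := hK11 k0 (by omega)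
  have hcomp := cell_comp S (C := C) (fun x h h1 h2 h3 => by
        have h4 := (hO k0 (by omega) x h h1 h2 h3).2
        refine h4.trans ?_
        apply mul_le_mul_of_nonneg_right
        · exact div_le_div_of_nonneg_right (le_abs_self C0) (Nat.cast_nonneg _)
        · have : (0 : ℝ) < x := by
            have : 0 < x := by omega
            exact_mod_cast this
          have : 0 ≤ Real.log x := Real.log_nonneg (by exact_mod_cast (show 1 ≤ x by omega))
          positivity) hC0 hk100 hj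
  have hprimes := sum_primes_cell S (k0 := k0) hk hj
  have hlhs : ∑ n ∈ cell S.d k j, CM (S.Wl k0 R k) n = ∑ n ∈ Finset.Ico A B,
      cm (fun p => 2 * S.ordw k0 p + S.bR R p + 2 * S.ctl k0 (min (top p) κ) R p) n := by
    refine Finset.sum_congr rfl fun n hn => ?_
    have hn0 : n ≠ 0 := by
      have h1 := cell_ge hn
      have h2 : 0 < 2 ^ k := by positivity
      omega
    rw [CM_eq_cm _ hn0]
    refine cm_congr fun p _ _ => ?_
    show S.bR R p + 2 * S.ordw k0 p + 2 * S.ctl k0 (min (top p) κ) R p = _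
    ring
  rw [hlhs]
  have hGn := S.G_nonneg k
  have f4 := mul_le_mul_of_nonneg_left b4 hGn
  have f5 := mul_le_mul_of_nonneg_left b5 hGn
  have f6 := mul_le_mul_of_nonneg_left b6 hGn
  have f7 := mul_le_mul_of_nonneg_left b7 hGn
  have hprimes' : ∑ p ∈ (Finset.Ico A B).filter Nat.Prime, 2 * S.ordw k0 p ≤
      (if S.bad k j then 0 else 2) * S.G k := hprimes
  refine hmain.trans ?_
  have e4 : S.G k * (8 * (k : ℝ) ^ 4 * (2 : ℝ) ^ (7 * S.tau * k) *
      (2 : ℝ) ^ (20 * (k : ℝ) / k0)) * M4 = S.G k * ((8 * (k : ℝ) ^ 4 *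
      (2 : ℝ) ^ (7 * S.tau * k) * (2 : ℝ) ^ (20 * (k : ℝ) / k0)) * M4) := by ring
  have e5 : S.G k * (8 * (k : ℝ) ^ 4 * (2 : ℝ) ^ (-(S.tau / 25) * k) *
      (2 : ℝ) ^ (20 * (k : ℝ) / k0)) * M5 = S.G k * ((8 * (k : ℝ) ^ 4 *
      (2 : ℝ) ^ (-(S.tau / 25) * k) * (2 : ℝ) ^ (20 * (k : ℝ) / k0)) * M5) := by ring
  have e6 : S.G k * (200 * C) * M6 = S.G k * (200 * C * M6) := by ring
  rw [e4, e5, e6]
  linarith

end Pool.Agent.Helper33.KS
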