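import Pool.Agent.Helper48.KS.MomentCond
import Pool.Agent.Helper62.KS.Prob

/-!
# Upper tails from conditional means (project KS, MP_768c9c_nt)

`pr_cond`: if all the conditional means given at most `D * (k - 1)` elements are `≤ L` then
`P(Z ≥ l) ≤ (L / l) ^ k`.
-/

set_option autoImplicit false

open MeasureTheory
open Pool.Agent.Helper33.KS
open Pool.Agent.Helper62.KS

namespace Pool.Agent.Helper33.KS

variable {ι τ : Type*} [DecidableEq ι]

/-- upper tail from conditional means -/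
theorem pr_cond (P : ι → ℝ) (hP : ∀ i, 0 ≤ P i ∧ P i ≤ 1) (T : Finset τ) (w : τ → ℝ)
    (S : τ → Finset ι) (hw : ∀ t ∈ T, 0 ≤ w t) (D : ℕ)
    (hS : ∀ t ∈ T, (S t).card ≤ D) (L : ℝ) (hL : 0 ≤ L) (k : ℕ)
    (hV : ∀ V : Finset ι, V.card ≤ D * (k - 1) → ∑ t ∈ T, w t * ∏ i ∈ S t \ V, P i ≤ L)
    (l : ℝ) (hl : 0 < l) :
    pr P {R | l ≤ YY T w S R} ≤ (L / l) ^ k := by
  exact Pool.Agent.Helper48.KS.tail_cond (bern (coin P)) rs bern_meas P (fun i => (hP i).1)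
    (fun A => by rw [bern_exact]; simp only [coin_coe hP]; exact le_rfl) T w S hw D hS L hL k hV
    l hl

/-- constant factor form: conditional means `≤ 2 m`, threshold `4 m` -/
theorem pr_cond_four (P : ι → ℝ) (hP : ∀ i, 0 ≤ P i ∧ P i ≤ 1) (T : Finset τ) (w : τ → ℝ)
    (S : τ → Finset ι) (hw : ∀ t ∈ T, 0 ≤ w t) (D : ℕ)
    (hS : ∀ t ∈ T, (S t).card ≤ D) (m : ℝ) (hm : 0 < m) (k : ℕ)
    (hV : ∀ V : Finset ι, V.card ≤ D * (k - 1) → ∑ t ∈ T, w t * ∏ i ∈ S t \ V, P i ≤ 2 * m) :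
    pr P {R | 4 * m ≤ YY T w S R} ≤ (1 / 2) ^ k := by
  have h := pr_cond P hP T w S hw D hS (2 * m) (by positivity) k hV (4 * m) (by positivity)
  have h1 : 2 * m / (4 * m) = 1 / 2 := by field_simp; norm_num
  rwa [h1] at h

end Pool.Agent.Helper33.KS
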