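import Pool.Agent.Helper33.KS.LWin

/-!
# Window bounds for Prop `Light` (project KS, MP_768c9c_nt)
-/

set_option autoImplicit false

namespace Pool.Agent.Helper33.KS

open Finset
open Pool.Agent.Helper16.KS

theorem three_pow_le {k0 k n : ℕ} (hk0 : 1 ≤ k0) (hk : 1 ≤ k) (hn0 : n ≠ 0) (hn : Sys.rough k0 n)
    (hnk : n < 2 ^ (k + 1)) :
    (3 : ℝ) ^ n.primeFactorsList.length ≤ (2 : ℝ) ^ (20 * (k : ℝ) / k0) := by
  have h1 := Sys.rough_omega_le hk0 hn0 hn hnk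
  have hk0' : (0 : ℝ) < k0 := by exact_mod_cast hk0
  have hk' : (1 : ℝ) ≤ k := by exact_mod_cast hk
  calc (3 : ℝ) ^ n.primeFactorsList.length ≤ (4 : ℝ) ^ n.primeFactorsList.length :=
        pow_le_pow_left₀ (by norm_num) (by norm_num) _
    _ = (2 : ℝ) ^ (2 * (n.primeFactorsList.length : ℝ)) := by
        rw [Real.rpow_mul (by norm_num), Real.rpow_natCast]
        norm_num
    _ ≤ (2 : ℝ) ^ (20 * (k : ℝ) / k0) := by
        apply two_le
        have h2 : 2 * (5 * ((k : ℝ) + 1) / k0) ≤ 20 * (k : ℝ) / k0 := by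
          rw [← mul_div_assoc]
          apply div_le_div_of_nonneg_right _ hk0'.le
          linarith
        linarith

theorem G_mul (S : Sys) {k : ℕ} (hk : 1 ≤ k) :
    (2 : ℝ) ^ ec S.d k * (2 : ℝ) ^ ((S.s - 1) * k) = S.G k * (k : ℝ) ^ 4 := by
  unfold Sys.G
  have : (k : ℝ) ^ 4 ≠ 0 := by
    have : (k : ℝ) ≠ 0 := by exact_mod_cast (show k ≠ 0 by omega)
    positivity
  field_simp

/-- elements of a sub-window -/
theorem mem_win_facts {S : Sys} {k j v x h k' m : ℕ} (hw : WData S k j v x h k') (hv : 1 ≤ v)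
    (hj : j < nc S.d k) (hm : m ∈ Finset.Ico x (x + h)) : m ≠ 0 ∧ m < 2 ^ (k + 1) := by
  have hx : 0 < x := lt_of_lt_of_le (by positivity) hw.low
  have hm1 := (Finset.mem_Ico.mp hm).1
  refine ⟨by omega, ?_⟩
  rw [← hw.eq, mem_wdiv (by omega)] at hm
  have h1 : v * m ∈ cell S.d k j := by
    rw [mem_cell]; exact hm
  have h2 := cell_lt S.d_pos hj h1
  exact lt_of_le_of_lt (Nat.le_mul_of_pos_left m (by omega)) h2

/-- crude bound in a sub-window -/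
theorem win_crude (S : Sys) {k0 : ℕ} {R : Set ℕ} (hG : S.Good k0 R) {k j v : ℕ} (hk0 : 1 ≤ k0)
    (hk : 100 ≤ k) (hkd : 4 ≤ S.d * k) (hkk : k0 ≤ k) (hj : j < nc S.d k) (hv : 1 ≤ v)
    (hv2 : (v : ℝ) ≤ (2 : ℝ) ^ (1.2 * S.d * (k : ℝ))) :
    ∑ m ∈ wdiv v (2 ^ k + j * 2 ^ ec S.d k) (2 ^ k + (j + 1) * 2 ^ ec S.d k),
      cm (fun p => 3 * S.Fh k0 R p) m ≤
    S.G k * (8 * (k : ℝ) ^ 4 * (2 : ℝ) ^ (7 * S.tau * k) * (2 : ℝ) ^ (20 * (k : ℝ) / k0)) *
      (v : ℝ) ^ (-S.s) := by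
  have hk' : (100 : ℝ) ≤ k := by exact_mod_cast hk
  have hd := S.d_le'
  have hd0 := S.d_pos
  have hs := S.s_pos
  have hs2 := S.s_lt
  have ht := S.tau_pos
  have ht2 := S.tau_le_s
  have hv0 : (0 : ℝ) < v := by exact_mod_cast hv
  have hv1 : (1 : ℝ) ≤ v := by exact_mod_cast hv
  obtain ⟨x, h, k', hw⟩ := exists_wdata S (v := v) hk hj hv (hv2.trans (two_le (by nlinarith)))
  rw [hw.eq]
  have hkk' : (k' : ℝ) ≤ k := by exact_mod_cast hw.kk
  have hk0k : (k0 : ℝ) ≤ k := by exact_mod_cast hkk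
  have h1 : ∑ m ∈ Finset.Ico x (x + h), cm (fun p => 3 * S.Fh k0 R p) m ≤
      (2 : ℝ) ^ (20 * (k : ℝ) / k0) * ∑ m ∈ Finset.Ico x (x + h), CM (S.Fh k0 R) m := by
    rw [Finset.mul_sum]
    refine Finset.sum_le_sum fun m hm => ?_
    obtain ⟨hm0, hmk⟩ := mem_win_facts hw hv hj hm
    rw [cm_mul_fun (fun _ => (3 : ℝ)) (S.Fh k0 R), cm_const _ hm0, ← CM_eq_cm _ hm0]
    by_cases hr : Sys.rough k0 m
    · exact mul_le_mul_of_nonneg_right (three_pow_le hk0 (by omega) hm0 hr hmk)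
        (CM_nonneg fun p _ _ => S.Fh_nonneg k0 R p)
    · rw [S.CM_Fh_eq_zero k0 R hm0 hr]; simp
  have hwin : (2 : ℝ) ^ ((1 / 2 - 3 * S.d) * (k' : ℝ)) ≤ h := by
    calc (2 : ℝ) ^ ((1 / 2 - 3 * S.d) * (k' : ℝ)) ≤ (2 : ℝ) ^ ((1 / 2 - 3 * S.d) * (k : ℝ)) := by
          apply two_le
          apply mul_le_mul_of_nonneg_left hkk'
          linarith
      _ ≤ (2 : ℝ) ^ ((k : ℝ) * (1 / 2 - S.d) - 1 - 1.2 * S.d * (k : ℝ) - 1) := by
          apply two_le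
          nlinarith
      _ = (2 : ℝ) ^ ((k : ℝ) * (1 / 2 - S.d) - 1) / (2 : ℝ) ^ (1.2 * S.d * (k : ℝ)) / 2 := by
          rw [Real.rpow_sub_one (by norm_num), Real.rpow_sub (by norm_num)]
      _ ≤ (2 : ℝ) ^ ec S.d k / v / 2 := by
          apply div_le_div_of_nonneg_right _ (by norm_num)
          exact div_le_div₀ (by positivity) (two_ec_ge S.d k) hv0 hv2
      _ ≤ h := hw.len'
  have h2 := hG.crude k' x h (by linarith [hw.half]) hw.low hw.up hwin hw.hx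
  have h3 := hw.pow_le hv (a := S.s - 1 + 7 * S.tau) (by
    have : S.s / 10 ^ 6 ≤ S.s := by
      rw [div_le_iff₀ (by positivity)]; nlinarith
    norm_num at hs2
    linarith) (by linarith)
  have h4 : (v : ℝ) ^ (-(S.s - 1 + 7 * S.tau)) / v ≤ (v : ℝ) ^ (-S.s) := by
    rw [← Real.rpow_sub_one hv0.ne']
    apply Real.rpow_le_rpow_of_exponent_le hv1
    linarith
  have h5 : (2 : ℝ) ^ ((S.s - 1 + 7 * S.tau) * (k : ℝ)) =
      (2 : ℝ) ^ ((S.s - 1) * (k : ℝ)) * (2 : ℝ) ^ (7 * S.tau * (k : ℝ)) := by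
    rw [← Real.rpow_add (by norm_num)]
    congr 1; ring
  have h6 : ∑ m ∈ Finset.Ico x (x + h), CM (S.Fh k0 R) m ≤
      S.G k * (8 * (k : ℝ) ^ 4 * (2 : ℝ) ^ (7 * S.tau * k)) * (v : ℝ) ^ (-S.s) := by
    calc ∑ m ∈ Finset.Ico x (x + h), CM (S.Fh k0 R) m
        ≤ h * (2 : ℝ) ^ ((S.s - 1 + 7 * S.tau) * (k' : ℝ)) := h2
      _ ≤ (2 * 2 ^ ec S.d k / v) * (4 * ((2 : ℝ) ^ ((S.s - 1 + 7 * S.tau) * (k : ℝ)) *
            (v : ℝ) ^ (-(S.s - 1 + 7 * S.tau)))) :=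
          mul_le_mul hw.len h3 (two_pos _).le (by positivity)
      _ = 8 * (2 ^ ec S.d k * (2 : ℝ) ^ ((S.s - 1) * (k : ℝ))) * (2 : ℝ) ^ (7 * S.tau * (k : ℝ)) *
            ((v : ℝ) ^ (-(S.s - 1 + 7 * S.tau)) / v) := by rw [h5]; ring
      _ ≤ 8 * (2 ^ ec S.d k * (2 : ℝ) ^ ((S.s - 1) * (k : ℝ))) * (2 : ℝ) ^ (7 * S.tau * (k : ℝ)) *
            (v : ℝ) ^ (-S.s) := mul_le_mul_of_nonneg_left h4 (by positivity)
      _ = _ := by rw [G_mul S (by omega)]; ring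
  refine h1.trans ((mul_le_mul_of_nonneg_left h6 (two_pos _).le).trans (le_of_eq ?_))
  ring

/-- the R-part function -/
theorem cm_bR (S : Sys) (R : Set ℕ) {e : ℕ} (he : e ≠ 0) :
    cm (fun p => 3 * S.bR R p) e = (3 : ℝ) ^ e.primeFactorsList.length *
      (cm (S.bR R) e) := by
  rw [cm_mul_fun (fun _ => (3 : ℝ)) (S.bR R), cm_const _ he]

theorem cm_bR_eq (S : Sys) (R : Set ℕ) {e : ℕ} (he : e ≠ 0) (h : inR R e) :
    cm (S.bR R) e = S.base e := by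
  have h1 : cm (S.bR R) e = cm S.base e := by
    refine cm_congr fun p hp hpe => ?_
    unfold Sys.bR
    rw [if_pos (h p hp hpe)]
  rw [h1]
  exact cm_rpow _ he

theorem cm_eq_zero {F : ℕ → ℝ} {n p : ℕ} (hp : p.Prime) (hpn : p ∣ n) (h : F p = 0) :
    cm F n = 0 := by
  obtain ⟨c, rfl⟩ := hpn
  rw [map_mul, cm_prime _ hp, h, zero_mul]

theorem cm_bR_zero (S : Sys) (R : Set ℕ) {e : ℕ} (h : ¬ inR R e) : cm (S.bR R) e = 0 := by
  unfold inR at h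
  push Not at h
  obtain ⟨p, hp, hpe, hpR⟩ := h
  refine cm_eq_zero hp hpe ?_
  unfold Sys.bR
  rw [if_neg hpR]

/-- bound for a large R-part in a sub-window -/
theorem win_rpart (S : Sys) {k0 : ℕ} {R : Set ℕ} (hG : S.Good k0 R)
    (hord : ∀ p : ℕ, p.Prime → 3 * (2 * S.ordw k0 p) ≤ (p : ℝ) ^ (S.s - 1))
    {k j v : ℕ} (hk0 : 2 ≤ k0)
    (hk : 100 ≤ k) (hkd : 4 ≤ S.d * k) (hkk : k0 ≤ k) (hj : j < nc S.d k) (hv : 1 ≤ v)
    (hv2 : (v : ℝ) ≤ (2 : ℝ) ^ (1.2 * S.d * (k : ℝ))) :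
    ∑ m ∈ wdiv v (2 ^ k + j * 2 ^ ec S.d k) (2 ^ k + (j + 1) * 2 ^ ec S.d k),
      (res {e | (2 : ℝ) ^ ((k : ℝ) / 8) ≤ (e : ℝ)} (cmA fun p => 3 * S.bR R p) *
        (cmA fun p => 3 * (2 * S.ordw k0 p))) m ≤
    S.G k * (8 * (k : ℝ) ^ 4 * (2 : ℝ) ^ (-(S.tau / 25) * k) * (2 : ℝ) ^ (20 * (k : ℝ) / k0)) *
      (v : ℝ) ^ (-S.s) := by
  classical
  have hk' : (100 : ℝ) ≤ k := by exact_mod_cast hk
  have hd := S.d_le'
  have hd0 := S.d_pos
  have hs := S.s_pos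
  have hs2 := S.s_lt
  have ht := S.tau_pos
  have ht2 := S.tau_le_s
  have hv0 : (0 : ℝ) < v := by exact_mod_cast hv
  have hv1 : (1 : ℝ) ≤ v := by exact_mod_cast hv
  obtain ⟨x, h, k', hw⟩ := exists_wdata S (v := v) hk hj hv (hv2.trans (two_le (by nlinarith)))
  rw [hw.eq]
  have hkk' : (k' : ℝ) ≤ k := by exact_mod_cast hw.kk
  have hk0k : (k0 : ℝ) ≤ k := by exact_mod_cast hkk
  have h1 : ∑ m ∈ Finset.Ico x (x + h),
      (res {e | (2 : ℝ) ^ ((k : ℝ) / 8) ≤ (e : ℝ)} (cmA fun p => 3 * S.bR R p) *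
        (cmA fun p => 3 * (2 * S.ordw k0 p))) m ≤
      (2 : ℝ) ^ (20 * (k : ℝ) / k0) * ∑ n ∈ (Finset.Ico x (x + h)).filter (Sys.rough k0),
      ∑ e ∈ n.divisors.filter (fun e : ℕ => (2 : ℝ) ^ ((k' : ℝ) / 8) ≤ (e : ℝ) ∧ inR R e),
        S.base e * ((n / e : ℕ) : ℝ) ^ (S.s - 1) := by
    rw [Finset.mul_sum, Finset.sum_filter]
    refine Finset.sum_le_sum fun m hm => ?_
    obtain ⟨hm0, hmk⟩ := mem_win_facts hw hv hj hm
    rw [ArithmeticFunction.mul_apply, Nat.sum_divisorsAntidiagonal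
      (f := fun a b => res {e : ℕ | (2 : ℝ) ^ ((k : ℝ) / 8) ≤ (e : ℝ)}
        (cmA fun p => 3 * S.bR R p) a * (cmA fun p => 3 * (2 * S.ordw k0 p)) b)]
    by_cases hr : Sys.rough k0 m
    · rw [if_pos hr, Finset.sum_filter, Finset.mul_sum]
      refine Finset.sum_le_sum fun e he => ?_
      have hem := Nat.dvd_of_mem_divisors he
      have he0 : e ≠ 0 := fun h0 => by rw [h0] at hem; exact hm0 (Nat.eq_zero_of_zero_dvd hem)
      have hme0 : m / e ≠ 0 := (Nat.div_pos (Nat.le_of_dvd (by omega) hem)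
        (Nat.pos_of_ne_zero he0)).ne'
      by_cases hE : (2 : ℝ) ^ ((k : ℝ) / 8) ≤ (e : ℝ)
      · rw [res_of_mem _ (show e ∈ {e : ℕ | (2 : ℝ) ^ ((k : ℝ) / 8) ≤ (e : ℝ)} from hE), cmA_apply,
          cmA_apply, cm_bR S R he0]
        by_cases hin : inR R e
        · have hE' : (2 : ℝ) ^ ((k' : ℝ) / 8) ≤ (e : ℝ) := (two_le (by linarith)).trans hE
          rw [if_pos ⟨hE', hin⟩, cm_bR_eq S R he0 hin]
          have h3 : (3 : ℝ) ^ e.primeFactorsList.length ≤ (2 : ℝ) ^ (20 * (k : ℝ) / k0) :=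
            three_pow_le (by omega) (by omega) he0 (fun p hp hpe => hr p hp (hpe.trans hem))
              (lt_of_le_of_lt (Nat.le_of_dvd (by omega) hem) hmk)
          have h4 : cm (fun p => 3 * (2 * S.ordw k0 p)) (m / e) ≤
              ((m / e : ℕ) : ℝ) ^ (S.s - 1) := by
            rw [← cm_rpow (S.s - 1) hme0]
            refine cm_mono (fun p _ _ => ?_) (fun p hp _ => hord p hp)
            have := S.ordw_nonneg k0 p
            positivity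
          have h5 : 0 ≤ cm (fun p => 3 * (2 * S.ordw k0 p)) (m / e) :=
            cm_nonneg (fun p _ => by have := S.ordw_nonneg k0 p; positivity) _
          have h6 := S.base_nonneg e
          calc (3 : ℝ) ^ e.primeFactorsList.length * S.base e *
                cm (fun p => 3 * (2 * S.ordw k0 p)) (m / e)
              ≤ (2 : ℝ) ^ (20 * (k : ℝ) / k0) * S.base e * ((m / e : ℕ) : ℝ) ^ (S.s - 1) :=
                mul_le_mul (mul_le_mul_of_nonneg_right h3 h6) h4 h5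
                  (mul_nonneg (two_pos _).le h6)
            _ = _ := by ring
        · rw [cm_bR_zero S R hin, mul_zero, zero_mul]
          split_ifs
          · have := S.base_nonneg e
            have := two_pos (20 * (k : ℝ) / k0)
            positivity
          · simp
      · rw [res_of_notMem _ (show e ∉ {e : ℕ | (2 : ℝ) ^ ((k : ℝ) / 8) ≤ (e : ℝ)} from hE),
          zero_mul]
        split_ifs
        · have := S.base_nonneg e
          have := two_pos (20 * (k : ℝ) / k0)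
          positivity
        · simp
    · rw [if_neg hr]
      unfold Sys.rough at hr
      push Not at hr
      obtain ⟨p, hp, hpm, hlt⟩ := hr
      refine le_of_eq (Finset.sum_eq_zero fun e he => ?_)
      have hem := Nat.dvd_of_mem_divisors he
      have hz1 : S.bR R p = 0 := by
        unfold Sys.bR
        rw [if_neg]
        intro hpR
        exact absurd (hG.prime p hpR).2 (not_le.mpr hlt)
      have hz2 : S.ordw k0 p = 0 := by
        unfold Sys.ordw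
        rw [if_pos]
        have h7 : (p : ℝ) < (2 : ℝ) ^ ((k0 - 1 : ℕ) : ℝ) := by
          refine lt_of_lt_of_le hlt (two_le ?_)
          rw [Nat.cast_sub (by omega)]
          have : (2 : ℝ) ≤ k0 := by exact_mod_cast hk0
          push_cast
          linarith
        rw [Real.rpow_natCast] at h7
        exact_mod_cast h7
      have hsplit : p ∣ e ∨ p ∣ m / e := by
        have : p ∣ e * (m / e) := by rw [Nat.mul_div_cancel' hem]; exact hpm
        exact (Nat.Prime.dvd_mul hp).mp this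
      rcases hsplit with h8 | h8
      · have h9 : res {e : ℕ | (2 : ℝ) ^ ((k : ℝ) / 8) ≤ (e : ℝ)}
            (cmA fun p => 3 * S.bR R p) e = 0 := by
          have h10 : (cmA fun p => 3 * S.bR R p) e = 0 :=
            cm_eq_zero hp h8 (by rw [hz1, mul_zero])
          by_cases hE : (2 : ℝ) ^ ((k : ℝ) / 8) ≤ (e : ℝ)
          · rw [res_of_mem _ (show e ∈ {e : ℕ | (2 : ℝ) ^ ((k : ℝ) / 8) ≤ (e : ℝ)} from hE), h10]
          · rw [res_of_notMem _ (show e ∉ {e : ℕ | (2 : ℝ) ^ ((k : ℝ) / 8) ≤ (e : ℝ)} from hE)]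
        rw [h9, zero_mul]
      · have h10 : (cmA fun p => 3 * (2 * S.ordw k0 p)) (m / e) = 0 :=
          cm_eq_zero hp h8 (by rw [hz2, mul_zero, mul_zero])
        rw [h10, mul_zero]
  have hwin : (2 : ℝ) ^ ((1 / 2 - 3 * S.d) * (k' : ℝ)) ≤ h := by
    calc (2 : ℝ) ^ ((1 / 2 - 3 * S.d) * (k' : ℝ)) ≤ (2 : ℝ) ^ ((1 / 2 - 3 * S.d) * (k : ℝ)) := by
          apply two_le
          apply mul_le_mul_of_nonneg_left hkk'
          linarith
      _ ≤ (2 : ℝ) ^ ((k : ℝ) * (1 / 2 - S.d) - 1 - 1.2 * S.d * (k : ℝ) - 1) := by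
          apply two_le
          nlinarith
      _ = (2 : ℝ) ^ ((k : ℝ) * (1 / 2 - S.d) - 1) / (2 : ℝ) ^ (1.2 * S.d * (k : ℝ)) / 2 := by
          rw [Real.rpow_sub_one (by norm_num), Real.rpow_sub (by norm_num)]
      _ ≤ (2 : ℝ) ^ ec S.d k / v / 2 := by
          apply div_le_div_of_nonneg_right _ (by norm_num)
          exact div_le_div₀ (by positivity) (two_ec_ge S.d k) hv0 hv2
      _ ≤ h := hw.len'
  have h2 := hG.rpart k' x h (by linarith [hw.half]) hw.low hw.up hwin hw.hx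
  have h3 := hw.pow_le hv (a := S.s - 1 - S.tau / 20) (by
    norm_num at hs2
    linarith) (by
    have : S.s / 10 ^ 6 ≤ S.s := by
      rw [div_le_iff₀ (by positivity)]; nlinarith
    norm_num at hs2
    linarith)
  have h4 : (v : ℝ) ^ (-(S.s - 1 - S.tau / 20)) / v ≤
      (2 : ℝ) ^ (S.tau / 140 * k) * (v : ℝ) ^ (-S.s) := by
    rw [← Real.rpow_sub_one hv0.ne']
    have e1 : -(S.s - 1 - S.tau / 20) - 1 = S.tau / 20 + -S.s := by ring
    rw [e1, Real.rpow_add hv0]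
    apply mul_le_mul_of_nonneg_right _ (by positivity)
    calc (v : ℝ) ^ (S.tau / 20) ≤ ((2 : ℝ) ^ (1.2 * S.d * (k : ℝ))) ^ (S.tau / 20) :=
          Real.rpow_le_rpow hv0.le hv2 (by positivity)
      _ = (2 : ℝ) ^ (1.2 * S.d * (k : ℝ) * (S.tau / 20)) := by rw [← Real.rpow_mul (by norm_num)]
      _ ≤ _ := by
          apply two_le
          have : 1.2 * S.d ≤ 1 / 7 := by linarith
          have h8 : 0 ≤ (k : ℝ) * (S.tau / 20) := by positivity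
          calc 1.2 * S.d * (k : ℝ) * (S.tau / 20) = 1.2 * S.d * ((k : ℝ) * (S.tau / 20)) := by ring
            _ ≤ 1 / 7 * ((k : ℝ) * (S.tau / 20)) := mul_le_mul_of_nonneg_right this h8
            _ = _ := by ring
  have h5 : (2 : ℝ) ^ ((S.s - 1 - S.tau / 20) * (k : ℝ)) =
      (2 : ℝ) ^ ((S.s - 1) * (k : ℝ)) * (2 : ℝ) ^ (-(S.tau / 20) * (k : ℝ)) := by
    rw [← Real.rpow_add (by norm_num)]
    congr 1; ring
  have h6 : ∑ n ∈ (Finset.Ico x (x + h)).filter (Sys.rough k0),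
      ∑ e ∈ n.divisors.filter (fun e : ℕ => (2 : ℝ) ^ ((k' : ℝ) / 8) ≤ (e : ℝ) ∧ inR R e),
        S.base e * ((n / e : ℕ) : ℝ) ^ (S.s - 1) ≤
      S.G k * (8 * (k : ℝ) ^ 4 * (2 : ℝ) ^ (-(S.tau / 25) * k)) * (v : ℝ) ^ (-S.s) := by
    calc _ ≤ h * (2 : ℝ) ^ ((S.s - 1 - S.tau / 20) * (k' : ℝ)) := h2
      _ ≤ (2 * 2 ^ ec S.d k / v) * (4 * ((2 : ℝ) ^ ((S.s - 1 - S.tau / 20) * (k : ℝ)) *
            (v : ℝ) ^ (-(S.s - 1 - S.tau / 20)))) :=
          mul_le_mul hw.len h3 (two_pos _).le (by positivity)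
      _ = 8 * (2 ^ ec S.d k * (2 : ℝ) ^ ((S.s - 1) * (k : ℝ))) *
            (2 : ℝ) ^ (-(S.tau / 20) * (k : ℝ)) *
            ((v : ℝ) ^ (-(S.s - 1 - S.tau / 20)) / v) := by rw [h5]; ring
      _ ≤ 8 * (2 ^ ec S.d k * (2 : ℝ) ^ ((S.s - 1) * (k : ℝ))) *
            (2 : ℝ) ^ (-(S.tau / 20) * (k : ℝ)) *
            ((2 : ℝ) ^ (S.tau / 140 * k) * (v : ℝ) ^ (-S.s)) :=
          mul_le_mul_of_nonneg_left h4 (by positivity)
      _ = 8 * (2 ^ ec S.d k * (2 : ℝ) ^ ((S.s - 1) * (k : ℝ))) *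
            ((2 : ℝ) ^ (-(S.tau / 20) * (k : ℝ)) * (2 : ℝ) ^ (S.tau / 140 * k)) *
              (v : ℝ) ^ (-S.s) := by ring
      _ ≤ 8 * (2 ^ ec S.d k * (2 : ℝ) ^ ((S.s - 1) * (k : ℝ))) *
            (2 : ℝ) ^ (-(S.tau / 25) * (k : ℝ)) * (v : ℝ) ^ (-S.s) := by
          apply mul_le_mul_of_nonneg_right _ (by positivity)
          apply mul_le_mul_of_nonneg_left _ (by positivity)
          rw [← Real.rpow_add (by norm_num)]
          apply two_le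
          nlinarith
      _ = _ := by rw [G_mul S (by omega)]; ring
  refine h1.trans ((mul_le_mul_of_nonneg_left h6 (two_pos _).le).trans (le_of_eq ?_))
  ring

/-- the scale of a sub-window -/
theorem WData.ord_le {S : Sys} {k j v x h k' : ℕ} (hw : WData S k j v x h k') (hk : 100 ≤ k)
    (hv : 1 ≤ v) : 2 ≤ x ∧ (h : ℝ) * (x : ℝ) ^ (S.s - 1) / Real.log x ^ 4 ≤
      162 * S.G k * (v : ℝ) ^ (-S.s) := by
  have hk' : (100 : ℝ) ≤ k := by exact_mod_cast hk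
  have hs := S.s_pos
  have hs2 := S.s_lt
  have hv0 : (0 : ℝ) < v := by exact_mod_cast hv
  have hv1 : (1 : ℝ) ≤ v := by exact_mod_cast hv
  have hx : (2 : ℝ) ^ ((k : ℝ) / 2) ≤ x := by
    calc (2 : ℝ) ^ ((k : ℝ) / 2) ≤ (2 : ℝ) ^ (k' : ℝ) := two_le hw.half
      _ = (2 : ℝ) ^ k' := Real.rpow_natCast _ _
      _ ≤ x := by exact_mod_cast hw.low
  have hx0 : (0 : ℝ) < x := lt_of_lt_of_le (two_pos _) hx
  have hx2 : 2 ≤ x := by
    have : (2 : ℝ) ^ (1 : ℝ) ≤ x := (two_le (by linarith)).trans hx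
    rw [Real.rpow_one] at this
    exact_mod_cast this
  refine ⟨hx2, ?_⟩
  have hlog : (k : ℝ) / 3 ≤ Real.log x := by
    have h2 : Real.log ((2 : ℝ) ^ ((k : ℝ) / 2)) ≤ Real.log x := Real.log_le_log (two_pos _) hx
    rw [Real.log_rpow (by norm_num)] at h2
    have := Real.log_two_gt_d9
    nlinarith
  have hxs : (x : ℝ) ^ (S.s - 1) ≤ (2 : ℝ) ^ ((S.s - 1) * (k : ℝ)) * (v : ℝ) ^ (1 - S.s) := by
    have h2 : (0 : ℝ) < (2 : ℝ) ^ k / v := by positivity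
    have h3 : S.s - 1 ≤ 0 := by norm_num at hs2; linarith
    refine (Real.rpow_le_rpow_of_nonpos h2 hw.xge h3).trans (le_of_eq ?_)
    rw [Real.div_rpow (by positivity) hv0.le, ← Real.rpow_natCast, ← Real.rpow_mul (by norm_num),
      mul_comm (k : ℝ), div_eq_mul_inv, ← Real.rpow_neg hv0.le]
    congr 2; ring
  have hlog4 : 1 / Real.log x ^ 4 ≤ 81 / (k : ℝ) ^ 4 := by
    have h2 : ((k : ℝ) / 3) ^ 4 ≤ Real.log x ^ 4 := pow_le_pow_left₀ (by positivity) hlog 4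
    have h3 : (0 : ℝ) < ((k : ℝ) / 3) ^ 4 := by positivity
    calc 1 / Real.log x ^ 4 ≤ 1 / ((k : ℝ) / 3) ^ 4 := one_div_le_one_div_of_le h3 h2
      _ = 81 / (k : ℝ) ^ 4 := by
          rw [div_pow]
          norm_num
  have h7 : (v : ℝ) ^ (1 - S.s) / v = (v : ℝ) ^ (-S.s) := by
    rw [← Real.rpow_sub_one hv0.ne']
    congr 1; ring
  calc h * (x : ℝ) ^ (S.s - 1) / Real.log x ^ 4
      = h * (x : ℝ) ^ (S.s - 1) * (1 / Real.log x ^ 4) := by ring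
    _ ≤ (2 * 2 ^ ec S.d k / v) * ((2 : ℝ) ^ ((S.s - 1) * (k : ℝ)) * (v : ℝ) ^ (1 - S.s)) *
          (81 / (k : ℝ) ^ 4) := by
        apply mul_le_mul (mul_le_mul hw.len hxs (by positivity) (by positivity)) hlog4
          (by positivity) (by positivity)
    _ = 162 * (2 ^ ec S.d k * (2 : ℝ) ^ ((S.s - 1) * (k : ℝ)) / (k : ℝ) ^ 4) *
          ((v : ℝ) ^ (1 - S.s) / v) := by ring
    _ = 162 * S.G k * (v : ℝ) ^ (-S.s) := by rw [h7]; rfl

/-- ordinary numbers in a sub-window -/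
theorem win_ord (S : Sys) {C : ℝ} {k0 : ℕ}
    (hO : ∀ x h : ℕ, (x : ℝ) ^ (1 / 3 : ℝ) ≤ h → h ≤ x → 2 ≤ x →
      ∑ n ∈ Finset.Ico x (x + h), CM (fun p => 6 * S.ordw k0 p) n ≤
        C * (h * (x : ℝ) ^ (S.s - 1) / Real.log x ^ 4)) (hC : 0 ≤ C)
    {k j v : ℕ} (hk : 100 ≤ k) (hj : j < nc S.d k) (hv : 1 ≤ v)
    (hv2 : (v : ℝ) ≤ (2 : ℝ) ^ ((k : ℝ) / 7)) :
    ∑ m ∈ wdiv v (2 ^ k + j * 2 ^ ec S.d k) (2 ^ k + (j + 1) * 2 ^ ec S.d k),
      cm (fun p => 3 * (2 * S.ordw k0 p)) m ≤ S.G k * (200 * C) * (v : ℝ) ^ (-S.s) := by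
  obtain ⟨x, h, k', hw⟩ := exists_wdata S (v := v) hk hj hv hv2
  rw [hw.eq]
  have h1 : ∑ m ∈ Finset.Ico x (x + h), cm (fun p => 3 * (2 * S.ordw k0 p)) m =
      ∑ m ∈ Finset.Ico x (x + h), CM (fun p => 6 * S.ordw k0 p) m := by
    refine Finset.sum_congr rfl fun m hm => ?_
    obtain ⟨hm0, _⟩ := mem_win_facts hw hv hj hm
    rw [CM_eq_cm _ hm0]
    exact cm_congr fun p _ _ => by ring
  rw [h1]
  obtain ⟨hx2, hle⟩ := hw.ord_le hk hv
  refine (hO x h hw.third hw.hx hx2).trans ?_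
  have h8 : 0 ≤ C * (S.G k * (v : ℝ) ^ (-S.s)) :=
    mul_nonneg hC (mul_nonneg (S.G_nonneg k) (by positivity))
  have h9 := mul_le_mul_of_nonneg_left hle hC
  nlinarith

/-- composite ordinary numbers in a cell -/
theorem cell_comp (S : Sys) {C : ℝ} {k0 : ℕ}
    (hO : ∀ x h : ℕ, (x : ℝ) ^ (1 / 3 : ℝ) ≤ h → h ≤ x → 2 ≤ x →
      ∑ n ∈ (Finset.Ico x (x + h)).filter (fun n => ¬ n.Prime), CM (fun p => 6 * S.ordw k0 p) n ≤
        C / k0 * (h * (x : ℝ) ^ (S.s - 1) / Real.log x ^ 4)) (hC : 0 ≤ C)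
    {k j : ℕ} (hk : 100 ≤ k) (hj : j < nc S.d k) :
    ∑ n ∈ (Finset.Ico (2 ^ k + j * 2 ^ ec S.d k) (2 ^ k + (j + 1) * 2 ^ ec S.d k)).filter
      (fun n => ¬ n.Prime), cm (fun p => 3 * (2 * S.ordw k0 p)) n ≤ S.G k * (200 * C / k0) := by
  obtain ⟨x, h, k', hw⟩ := exists_wdata S (v := 1) hk hj le_rfl (by
    rw [Nat.cast_one]; exact Real.one_le_rpow (by norm_num) (by positivity))
  have heq := hw.eq
  rw [wdiv_one] at heq
  rw [heq]
  have h1 : ∑ m ∈ (Finset.Ico x (x + h)).filter (fun n => ¬ n.Prime),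
      cm (fun p => 3 * (2 * S.ordw k0 p)) m =
      ∑ m ∈ (Finset.Ico x (x + h)).filter (fun n => ¬ n.Prime),
        CM (fun p => 6 * S.ordw k0 p) m := by
    refine Finset.sum_congr rfl fun m hm => ?_
    obtain ⟨hm0, _⟩ := mem_win_facts hw le_rfl hj (Finset.mem_filter.mp hm).1
    rw [CM_eq_cm _ hm0]
    exact cm_congr fun p _ _ => by ring
  rw [h1]
  obtain ⟨hx2, hle⟩ := hw.ord_le hk le_rfl
  rw [Nat.cast_one, Real.one_rpow, mul_one] at hle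
  refine (hO x h hw.third hw.hx hx2).trans ?_
  have hC' : 0 ≤ C / k0 := div_nonneg hC (Nat.cast_nonneg _)
  have h8 : 0 ≤ C / k0 * S.G k := mul_nonneg hC' (S.G_nonneg k)
  have h9 := mul_le_mul_of_nonneg_left hle hC'
  have h10 : S.G k * (200 * C / k0) = 200 * (C / k0 * S.G k) := by ring
  rw [h10]
  nlinarith

end Pool.Agent.Helper33.KS
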