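import Pool.Agent.Helper33.KS.Light
import Pool.Agent.Helper16.KS.Basic

/-!
# Sub-windows of cells (project KS, MP_768c9c_nt, Prop `Light`)
-/

set_option autoImplicit false

namespace Pool.Agent.Helper33.KS

open Finset
open Pool.Agent.Helper16.KS

theorem CM_eq_cm (g : ℕ → ℝ) {n : ℕ} (hn : n ≠ 0) : CM g n = cm g n := by
  rw [CM_eq_prod, cm_apply' g hn]

theorem two_le {a b : ℝ} (h : a ≤ b) : (2 : ℝ) ^ a ≤ (2 : ℝ) ^ b :=
  Real.rpow_le_rpow_of_exponent_le (by norm_num) h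

theorem two_pos (a : ℝ) : (0 : ℝ) < (2 : ℝ) ^ a := Real.rpow_pos_of_pos (by norm_num) a

theorem ec_ge (d : ℝ) (k : ℕ) : (k : ℝ) * (1 / 2 - d) - 1 ≤ (ec d k : ℝ) := by
  unfold ec
  have := Nat.lt_floor_add_one ((k : ℝ) * (1 / 2 - d))
  linarith

theorem ec_le' {d : ℝ} (hd : d ≤ 1 / 2) (k : ℕ) : (ec d k : ℝ) ≤ (k : ℝ) * (1 / 2 - d) := by
  unfold ec
  refine Nat.floor_le ?_
  have : (0 : ℝ) ≤ k := Nat.cast_nonneg k
  nlinarith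

theorem two_ec_ge (d : ℝ) (k : ℕ) :
    (2 : ℝ) ^ ((k : ℝ) * (1 / 2 - d) - 1) ≤ (2 : ℝ) ^ ec d k := by
  rw [← Real.rpow_natCast]
  exact two_le (ec_ge d k)

theorem two_ec_le {d : ℝ} (hd : d ≤ 1 / 2) (k : ℕ) :
    (2 : ℝ) ^ ec d k ≤ (2 : ℝ) ^ ((k : ℝ) * (1 / 2 - d)) := by
  rw [← Real.rpow_natCast]
  exact two_le (ec_le' hd k)

theorem ceilDiv_le_self {A v : ℕ} (hv : 0 < v) : A ⌈/⌉ v ≤ A := by
  rw [ceilDiv_le_iff_le_mul hv]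
  exact Nat.le_mul_of_pos_left A hv

/-- all the data of the sub-window `K / v` of a cell -/
structure WData (S : Sys) (k j v x h k' : ℕ) : Prop where
  eq : wdiv v (2 ^ k + j * 2 ^ ec S.d k) (2 ^ k + (j + 1) * 2 ^ ec S.d k) = Finset.Ico x (x + h)
  low : 2 ^ k' ≤ x
  up : x < 2 ^ (k' + 1)
  kk : k' ≤ k
  half : (k : ℝ) / 2 ≤ k'
  hx : h ≤ x
  third : (x : ℝ) ^ (1 / 3 : ℝ) ≤ h
  len : (h : ℝ) ≤ 2 * 2 ^ ec S.d k / v
  len' : (2 : ℝ) ^ ec S.d k / v / 2 ≤ h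
  xge : (2 : ℝ) ^ k / v ≤ x
  kge : (2 : ℝ) ^ (k : ℝ) / v / 2 ≤ (2 : ℝ) ^ (k' : ℝ)

theorem exists_wdata (S : Sys) {k j v : ℕ} (hk : 100 ≤ k) (hj : j < nc S.d k) (hv : 1 ≤ v)
    (hv2 : (v : ℝ) ≤ (2 : ℝ) ^ ((k : ℝ) / 7)) : ∃ x h k' : ℕ, WData S k j v x h k' := by
  set E := ec S.d k with hE
  set A := 2 ^ k + j * 2 ^ E with hA
  set B := 2 ^ k + (j + 1) * 2 ^ E with hB
  have hv0 : (0 : ℝ) < v := by exact_mod_cast hv
  have hk' : (100 : ℝ) ≤ k := by exact_mod_cast hk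
  have hd := S.d_le'
  have hd0 := S.d_pos
  have hBA : B = A + 2 ^ E := by rw [hA, hB]; ring
  have hBA' : (B : ℝ) - A = 2 ^ E := by rw [hBA]; push_cast; ring
  have hAB : A ⌈/⌉ v ≤ B ⌈/⌉ v := by
    rw [ceilDiv_le_iff_le_mul (by omega)]
    have h1 := (ceilDiv_le_iff_le_mul (b := B) (c := B ⌈/⌉ v) (show 0 < v by omega)).mp le_rfl
    exact le_trans (by rw [hBA]; exact Nat.le_add_right _ _) h1
  set x := A ⌈/⌉ v with hx
  set h := B ⌈/⌉ v - x with hh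
  set k' := Nat.log 2 x with hkk
  have hcast : (h : ℝ) = ((B ⌈/⌉ v : ℕ) : ℝ) - ((A ⌈/⌉ v : ℕ) : ℝ) := by
    rw [hh, Nat.cast_sub hAB]
  have hlen1 : (h : ℝ) ≤ (2 : ℝ) ^ E / v + 1 := by
    rw [hcast, ← hBA']
    exact wdiv_len_le (by omega)
  have hlen2 : (2 : ℝ) ^ E / v - 1 ≤ h := by
    rw [hcast, ← hBA']
    exact le_wdiv_len (by omega)
  have hEv : (2 : ℝ) ^ ((k : ℝ) * (1 / 2 - S.d) - 1 - (k : ℝ) / 7) ≤ (2 : ℝ) ^ E / v := by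
    rw [Real.rpow_sub (by norm_num)]
    exact div_le_div₀ (by positivity) (two_ec_ge S.d k) hv0 hv2
  have hsmall : (k : ℝ) * S.d ≤ k / 1000 := by
    have : S.d ≤ 1 / 1000 := by linarith
    nlinarith
  have hEv2 : (2 : ℝ) ≤ (2 : ℝ) ^ E / v := by
    refine le_trans ?_ hEv
    have h1 : (2 : ℝ) ^ (1 : ℝ) ≤ (2 : ℝ) ^ ((k : ℝ) * (1 / 2 - S.d) - 1 - (k : ℝ) / 7) := by
      apply two_le
      nlinarith
    simpa using h1
  have hl1 : (h : ℝ) ≤ 2 * 2 ^ E / v := by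
    have : (2 : ℝ) * 2 ^ E / v = 2 ^ E / v + 2 ^ E / v := by ring
    linarith
  have hl2 : (2 : ℝ) ^ E / v / 2 ≤ h := by linarith
  have hxge : (2 : ℝ) ^ k / v ≤ x := by
    have h1 : (A : ℝ) / v ≤ x := ceilDiv_ge (by omega)
    refine le_trans ?_ h1
    apply div_le_div_of_nonneg_right _ hv0.le
    rw [hA]; push_cast
    have : (0 : ℝ) ≤ j * 2 ^ E := by positivity
    linarith
  have hxA : x ≤ A := ceilDiv_le_self (by omega)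
  have hA2 : A < 2 ^ (k + 1) := by
    have h1 : A ∈ cell S.d k j := by
      rw [mem_cell]
      refine ⟨le_rfl, ?_⟩
      rw [← hE, ← hB, hBA]
      have : 0 < 2 ^ E := by positivity
      omega
    exact cell_lt S.d_pos hj h1
  have hxpos : 0 < x := by
    have : (0 : ℝ) < x := lt_of_lt_of_le (by positivity) hxge
    exact_mod_cast this
  have hlow : 2 ^ k' ≤ x := Nat.pow_log_le_self 2 hxpos.ne'
  have hup : x < 2 ^ (k' + 1) := Nat.lt_pow_succ_log_self (by norm_num) x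
  have hkk' : k' ≤ k := by
    have h1 : 2 ^ k' < 2 ^ (k + 1) := lt_of_le_of_lt hlow (lt_of_le_of_lt hxA hA2)
    have := (Nat.pow_lt_pow_iff_right (by norm_num)).mp h1
    omega
  have hxge2 : (2 : ℝ) ^ ((k : ℝ) * (6 / 7)) ≤ x := by
    refine le_trans ?_ hxge
    rw [show (k : ℝ) * (6 / 7) = k - k / 7 by ring, Real.rpow_sub (by norm_num), Real.rpow_natCast]
    exact div_le_div_of_nonneg_left (by positivity) hv0 hv2
  have hup' : (x : ℝ) < (2 : ℝ) ^ ((k' : ℝ) + 1) := by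
    rw [show (k' : ℝ) + 1 = ((k' + 1 : ℕ) : ℝ) by push_cast; ring, Real.rpow_natCast]
    exact_mod_cast hup
  have hhalf : (k : ℝ) / 2 ≤ k' := by
    have h1 := (Real.rpow_lt_rpow_left_iff (by norm_num : (1 : ℝ) < 2)).mp
      (lt_of_le_of_lt hxge2 hup')
    linarith
  have hkge : (2 : ℝ) ^ (k : ℝ) / v / 2 ≤ (2 : ℝ) ^ (k' : ℝ) := by
    rw [Real.rpow_add_one (by norm_num)] at hup'
    have h1 : (2 : ℝ) ^ (k : ℝ) / v ≤ x := by rw [Real.rpow_natCast]; exact hxge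
    linarith
  have hhx : (h : ℝ) ≤ x := by
    refine hl1.trans (le_trans ?_ hxge)
    apply div_le_div_of_nonneg_right _ hv0.le
    have h1 : (2 : ℝ) ^ E ≤ (2 : ℝ) ^ ((k : ℝ) * (1 / 2 - S.d)) := two_ec_le (by linarith) k
    calc (2 : ℝ) * 2 ^ E ≤ 2 ^ (1 : ℝ) * (2 : ℝ) ^ ((k : ℝ) * (1 / 2 - S.d)) := by
          rw [Real.rpow_one]; linarith
      _ = (2 : ℝ) ^ (1 + (k : ℝ) * (1 / 2 - S.d)) := by rw [Real.rpow_add (by norm_num)]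
      _ ≤ (2 : ℝ) ^ (k : ℝ) := by
          apply two_le
          nlinarith
      _ = (2 : ℝ) ^ k := Real.rpow_natCast _ _
  have hthird : (x : ℝ) ^ (1 / 3 : ℝ) ≤ h := by
    have h1 : (x : ℝ) ≤ (2 : ℝ) ^ ((k : ℝ) + 1) := by
      rw [show (k : ℝ) + 1 = ((k + 1 : ℕ) : ℝ) by push_cast; ring, Real.rpow_natCast]
      exact_mod_cast (lt_of_le_of_lt hxA hA2).le
    calc (x : ℝ) ^ (1 / 3 : ℝ) ≤ ((2 : ℝ) ^ ((k : ℝ) + 1)) ^ (1 / 3 : ℝ) :=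
          Real.rpow_le_rpow (Nat.cast_nonneg _) h1 (by norm_num)
      _ = (2 : ℝ) ^ (((k : ℝ) + 1) * (1 / 3)) := by rw [← Real.rpow_mul (by norm_num)]
      _ ≤ (2 : ℝ) ^ ((k : ℝ) * (1 / 2 - S.d) - 1 - (k : ℝ) / 7 - 1) := by
          apply two_le
          nlinarith
      _ = (2 : ℝ) ^ ((k : ℝ) * (1 / 2 - S.d) - 1 - (k : ℝ) / 7) / 2 := by
          rw [Real.rpow_sub_one (by norm_num)]
      _ ≤ (2 : ℝ) ^ E / v / 2 := by linarith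
      _ ≤ h := hl2
  refine ⟨x, h, k', ⟨?_, hlow, hup, hkk', hhalf, by exact_mod_cast hhx, hthird, hl1, hl2, hxge,
    hkge⟩⟩
  show Finset.Ico x (B ⌈/⌉ v) = _
  rw [hh, Nat.add_sub_cancel' hAB]

/-- negative powers of the level of a sub-window -/
theorem WData.pow_le {S : Sys} {k j v x h k' : ℕ} (hw : WData S k j v x h k') (hv : 1 ≤ v)
    {a : ℝ} (ha : a ≤ 0) (ha1 : -2 ≤ a) :
    (2 : ℝ) ^ (a * (k' : ℝ)) ≤ 4 * ((2 : ℝ) ^ (a * (k : ℝ)) * (v : ℝ) ^ (-a)) := by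
  have hv0 : (0 : ℝ) < v := by exact_mod_cast hv
  have h1 : (2 : ℝ) ^ (a * (k' : ℝ)) = ((2 : ℝ) ^ (k' : ℝ)) ^ a := by
    rw [← Real.rpow_mul (by norm_num), mul_comm]
  rw [h1]
  have h2 : (0 : ℝ) < (2 : ℝ) ^ (k : ℝ) / v / 2 := by have := two_pos (k : ℝ); positivity
  refine (Real.rpow_le_rpow_of_nonpos h2 hw.kge ha).trans ?_
  rw [Real.div_rpow (by positivity) (by norm_num), Real.div_rpow (by positivity) hv0.le,
    ← Real.rpow_mul (by norm_num), mul_comm (k : ℝ) a, Real.rpow_neg hv0.le]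
  have h3 : (1 : ℝ) / 4 ≤ (2 : ℝ) ^ a := by
    have : (2 : ℝ) ^ (-2 : ℝ) ≤ (2 : ℝ) ^ a := two_le ha1
    rw [show (-2 : ℝ) = ((-2 : ℤ) : ℝ) by norm_num, Real.rpow_intCast] at this
    norm_num at this ⊢
    linarith
  have h4 := two_pos a
  have h5 : 0 ≤ (2 : ℝ) ^ (a * (k : ℝ)) * ((v : ℝ) ^ a)⁻¹ := by positivity
  rw [div_eq_mul_inv, div_eq_mul_inv]
  have h6 : ((2 : ℝ) ^ a)⁻¹ ≤ 4 := by
    rw [inv_le_comm₀ h4 (by norm_num)]; linarith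
  calc _ ≤ (2 : ℝ) ^ (a * (k : ℝ)) * ((v : ℝ) ^ a)⁻¹ * 4 := mul_le_mul_of_nonneg_left h6 h5
    _ = _ := by ring

end Pool.Agent.Helper33.KS
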