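import Pool.Agent.Helper33.KS.Win

/-!
# The light part of STAR, combinatorial assembly (project KS, MP_768c9c_nt)

`light_sum`: the sum of `cm (al + rb + ga)` over a window in terms of

* primes of the window with weight `al`,
* a medium divisor `v'` of the `ga`-part (crude bound for the rest),
* a large `rb`-part,
* ordinary numbers (`al`) in sub-windows.
-/

set_option autoImplicit false

namespace Pool.Agent.Helper33.KS

open Finset

/-- a divisor in `[V0, V1]` of a number `≥ V1` whose prime factors are `≤ V1 / V0` -/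
theorem exists_mid_divisor {V0 V1 : ℝ} (h0 : 1 ≤ V0) (h01 : V0 ≤ V1) {v : ℕ} (hv0 : v ≠ 0)
    (hv : V1 ≤ v) (hp : ∀ p, p.Prime → p ∣ v → (p : ℝ) * V0 ≤ V1) :
    ∃ d, d ∣ v ∧ V0 ≤ (d : ℝ) ∧ (d : ℝ) ≤ V1 := by
  classical
  set s := v.divisors.filter (fun d : ℕ => V0 ≤ (d : ℝ)) with hs
  have hne : s.Nonempty := ⟨v, by
    rw [hs, Finset.mem_filter, Nat.mem_divisors]
    exact ⟨⟨dvd_rfl, hv0⟩, h01.trans hv⟩⟩
  have hmem := s.min'_mem hne
  set d := s.min' hne with hd
  rw [hs, Finset.mem_filter, Nat.mem_divisors] at hmem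
  refine ⟨d, hmem.1.1, hmem.2, ?_⟩
  by_cases h1 : d = 1
  · rw [h1]; push_cast; linarith
  obtain ⟨p, hpp, hpd⟩ := Nat.exists_prime_and_dvd h1
  obtain ⟨c, hc⟩ := hpd
  have hd0 : d ≠ 0 := fun h => by rw [h] at hmem; exact hv0 (Nat.eq_zero_of_zero_dvd hmem.1.1)
  have hc0 : 0 < c := by
    rcases Nat.eq_zero_or_pos c with h | h
    · rw [h, mul_zero] at hc; exact absurd hc hd0
    · exact h
  have hcd : c < d := by
    rw [hc]
    nlinarith [hpp.two_le]
  have hcv : c ∣ v := (Dvd.intro_left p hc.symm).trans hmem.1.1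
  have hclt : (c : ℝ) < V0 := by
    by_contra hcon
    push Not at hcon
    have hcs : c ∈ s := by
      rw [hs, Finset.mem_filter, Nat.mem_divisors]
      exact ⟨⟨hcv, hv0⟩, hcon⟩
    have := s.min'_le c hcs
    omega
  have h2 := hp p hpp ((Dvd.intro c hc.symm).trans hmem.1.1)
  have h3 : (d : ℝ) = p * c := by rw [hc]; push_cast; ring
  rw [h3]
  have hp0 : (0 : ℝ) < p := by exact_mod_cast hpp.pos
  nlinarith

/-- part (a): pull out a medium divisor -/
theorem conv_mid {ga : ℕ → ℝ} (hga : ∀ p, p.Prime → 0 ≤ ga p) {V0 V1 : ℝ} (h0 : 1 ≤ V0)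
    (h01 : V0 ≤ V1) (hp : ∀ p, p.Prime → ga p ≠ 0 → (p : ℝ) * V0 ≤ V1)
    (q F : ArithmeticFunction ℝ) (hq : ∀ n, 0 ≤ q n)
    (hF : ∀ n, n ≠ 0 → (cmA ga * q) n ≤ F n) {n : ℕ} (hn : n ≠ 0) :
    (res {v | V1 ≤ (v : ℝ)} (cmA ga) * q) n ≤
      (res {v | V0 ≤ (v : ℝ) ∧ (v : ℝ) ≤ V1} (cmA ga) * F) n := by
  classical
  set g := cmA ga with hg
  have hg0 : ∀ n, 0 ≤ g n := fun n => cm_nonneg hga n
  rw [ArithmeticFunction.mul_apply, ArithmeticFunction.mul_apply,
    Nat.sum_divisorsAntidiagonal (f := fun a b => res {v | V1 ≤ (v : ℝ)} g a * q b),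
    Nat.sum_divisorsAntidiagonal
      (f := fun a b => res {v | V0 ≤ (v : ℝ) ∧ (v : ℝ) ≤ V1} g a * F b)]
  -- the chosen divisor
  have hex : ∀ v : ℕ, ∃ d, v ∈ n.divisors → V1 ≤ (v : ℝ) → g v ≠ 0 →
      d ∣ v ∧ V0 ≤ (d : ℝ) ∧ (d : ℝ) ≤ V1 := by
    intro v
    by_cases h : v ∈ n.divisors ∧ V1 ≤ (v : ℝ) ∧ g v ≠ 0
    · obtain ⟨h1, h2, h3⟩ := h
      have hv0 : v ≠ 0 := fun h => by
        rw [h] at h1; simp at h1; 
      obtain ⟨d, hd⟩ := exists_mid_divisor h0 h01 hv0 h2 (fun p hpp hpv => by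
        apply hp p hpp
        intro hzero
        apply h3
        obtain ⟨c, hc⟩ := hpv
        rw [hg, hc, cmA_mul, cmA_apply, cm_prime _ hpp, hzero, zero_mul])
      exact ⟨d, fun _ _ _ => hd⟩
    · refine ⟨0, fun h1 h2 h3 => absurd ⟨h1, h2, h3⟩ h⟩
  choose t ht using hex
  set s := n.divisors.filter (fun v : ℕ => V1 ≤ (v : ℝ) ∧ g v ≠ 0) with hs
  have hL : ∑ v ∈ n.divisors, res {v | V1 ≤ (v : ℝ)} g v * q (n / v) =
      ∑ v ∈ s, g (t v) * (g (v / t v) * q (n / t v / (v / t v))) := by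
    rw [hs, Finset.sum_filter]
    refine Finset.sum_congr rfl fun v hv => ?_
    by_cases h1 : V1 ≤ (v : ℝ)
    · rw [res_of_mem g (show v ∈ {v : ℕ | V1 ≤ (v : ℝ)} from h1)]
      by_cases h2 : g v = 0
      · rw [if_neg (fun h => h.2 h2), h2, zero_mul]
      · rw [if_pos ⟨h1, h2⟩]
        obtain ⟨hd, _, _⟩ := ht v hv h1 h2
        have hvn := Nat.dvd_of_mem_divisors hv
        have e1 : t v * (v / t v) = v := Nat.mul_div_cancel' hd
        have e2 : n / t v / (v / t v) = n / v := by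
          rw [Nat.div_div_eq_div_mul, e1]
        rw [e2, ← mul_assoc]
        congr 1
        rw [hg, ← cmA_mul, e1]
    · rw [res_of_notMem g (show v ∉ {v : ℕ | V1 ≤ (v : ℝ)} from h1), zero_mul,
        if_neg (fun h => h1 h.1)]
  rw [hL]
  have hinj : Set.InjOn (fun v => (⟨t v, v / t v⟩ : Σ _ : ℕ, ℕ)) (s : Set ℕ) := by
    intro v hv w hw h
    rw [hs, Finset.coe_filter, Set.mem_ofPred_eq] at hv hw
    obtain ⟨hd, _, _⟩ := ht v hv.1 hv.2.1 hv.2.2
    obtain ⟨hd', _, _⟩ := ht w hw.1 hw.2.1 hw.2.2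
    have h1 := (Sigma.mk.inj h).1
    have h2 := eq_of_heq (Sigma.mk.inj h).2
    rw [← Nat.mul_div_cancel' hd, ← Nat.mul_div_cancel' hd', h2, h1]
  calc ∑ v ∈ s, g (t v) * (g (v / t v) * q (n / t v / (v / t v)))
      = ∑ x ∈ s.image (fun v => (⟨t v, v / t v⟩ : Σ _ : ℕ, ℕ)),
          g x.1 * (g x.2 * q (n / x.1 / x.2)) := by
        rw [Finset.sum_image hinj]
    _ ≤ ∑ x ∈ (n.divisors.filter (fun v : ℕ => V0 ≤ (v : ℝ) ∧ (v : ℝ) ≤ V1)).sigma
          (fun d => (n / d).divisors), g x.1 * (g x.2 * q (n / x.1 / x.2)) := by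
        refine Finset.sum_le_sum_of_subset_of_nonneg ?_ fun x _ _ =>
          mul_nonneg (hg0 _) (mul_nonneg (hg0 _) (hq _))
        intro x hx
        obtain ⟨v, hv, rfl⟩ := Finset.mem_image.mp hx
        rw [hs, Finset.mem_filter] at hv
        obtain ⟨hd, h1, h2⟩ := ht v hv.1 hv.2.1 hv.2.2
        have hvn := Nat.dvd_of_mem_divisors hv.1
        rw [Finset.mem_sigma, Finset.mem_filter]
        refine ⟨⟨Nat.mem_divisors.mpr ⟨hd.trans hvn, hn⟩, h1, h2⟩, ?_⟩
        rw [Nat.mem_divisors]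
        refine ⟨Nat.div_dvd_div hd hvn, ?_⟩
        exact (Nat.div_pos (Nat.le_of_dvd (by omega) (hd.trans hvn))
          (Nat.pos_of_dvd_of_pos (hd.trans hvn) (by omega))).ne'
    _ = ∑ d ∈ n.divisors.filter (fun v : ℕ => V0 ≤ (v : ℝ) ∧ (v : ℝ) ≤ V1),
          g d * (g * q) (n / d) := by
        rw [Finset.sum_sigma]
        refine Finset.sum_congr rfl fun d _ => ?_
        rw [ArithmeticFunction.mul_apply, Nat.sum_divisorsAntidiagonal
          (f := fun a b => g a * q b), Finset.mul_sum]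
    _ ≤ ∑ d ∈ n.divisors.filter (fun v : ℕ => V0 ≤ (v : ℝ) ∧ (v : ℝ) ≤ V1), g d * F (n / d) := by
        refine Finset.sum_le_sum fun d hd => ?_
        rw [Finset.mem_filter] at hd
        have hdn := Nat.dvd_of_mem_divisors hd.1
        exact mul_le_mul_of_nonneg_left (hF _ (Nat.div_pos (Nat.le_of_dvd (by omega) hdn)
          (Nat.pos_of_dvd_of_pos hdn (by omega))).ne') (hg0 _)
    _ = ∑ v ∈ n.divisors, res {v | V0 ≤ (v : ℝ) ∧ (v : ℝ) ≤ V1} g v * F (n / v) := by
        rw [Finset.sum_filter]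
        refine Finset.sum_congr rfl fun v _ => ?_
        by_cases h1 : V0 ≤ (v : ℝ) ∧ (v : ℝ) ≤ V1
        · rw [if_pos h1, res_of_mem g (show v ∈ {v : ℕ | V0 ≤ (v : ℝ) ∧ (v : ℝ) ≤ V1} from h1)]
        · rw [if_neg h1, res_of_notMem g
            (show v ∉ {v : ℕ | V0 ≤ (v : ℝ) ∧ (v : ℝ) ≤ V1} from h1), zero_mul]

/-- pointwise splitting of `cm (al + rb + ga) n` -/
theorem light_point {al rb ga ft : ℕ → ℝ} (hal : ∀ p, p.Prime → 0 ≤ al p)
    (hrb : ∀ p, p.Prime → 0 ≤ rb p) (hga : ∀ p, p.Prime → 0 ≤ ga p)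
    (hft : ∀ p, p.Prime → 3 * ga p + 3 * rb p + 3 * al p ≤ ft p)
    {V0 V1 E0 : ℝ} (h0 : 1 ≤ V0) (h01 : V0 ≤ V1) (hV1 : 1 < V1) (hE0 : 1 < E0)
    (hp : ∀ p, p.Prime → ga p ≠ 0 → (p : ℝ) * V0 ≤ V1) {n : ℕ} (hn : n ≠ 0) :
    cm (fun p => al p + rb p + ga p) n ≤ (if n.Prime then al n else 0) +
      (if n.Prime then 0 else cm (fun p => 3 * al p) n) +
      (res {v | V0 ≤ (v : ℝ) ∧ (v : ℝ) ≤ V1} (cmA fun p => 3 * ga p) * cmA ft) n +
      (res {v | (v : ℝ) < V1} (cmA fun p => 3 * ga p) *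
        (res {v | E0 ≤ (v : ℝ)} (cmA fun p => 3 * rb p) * (cmA fun p => 3 * al p))) n +
      (res {v | v ≠ 1} (res {v | (v : ℝ) < V1} (cmA fun p => 3 * ga p) *
        res {v | (v : ℝ) < E0} (cmA fun p => 3 * rb p)) * (cmA fun p => 3 * al p)) n := by
  classical
  set g := cmA fun p => 3 * ga p with hg
  set r := cmA fun p => 3 * rb p with hr
  set a := cmA fun p => 3 * al p with ha
  have hg0 : ∀ n, 0 ≤ g n := fun n => cm_nonneg (fun p hp => mul_nonneg (by norm_num) (hga p hp)) n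
  have hr0 : ∀ n, 0 ≤ r n := fun n => cm_nonneg (fun p hp => mul_nonneg (by norm_num) (hrb p hp)) n
  have ha0 : ∀ n, 0 ≤ a n := fun n => cm_nonneg (fun p hp => mul_nonneg (by norm_num) (hal p hp)) n
  have hT : cm (fun p => al p + rb p + ga p) n ≤ (g * (r * a)) n := by
    have h := cm_split_three hal hrb hga hn
    have e : (a * r * g) n = ∑ x ∈ n.divisorsAntidiagonal, (∑ y ∈ x.1.divisorsAntidiagonal,
        cm (fun p => 3 * al p) y.1 * cm (fun p => 3 * rb p) y.2) *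
          cm (fun p => 3 * ga p) x.2 := by
      rw [ArithmeticFunction.mul_apply]
      refine Finset.sum_congr rfl fun x _ => ?_
      rw [ArithmeticFunction.mul_apply]; rfl
    rw [← e] at h
    refine h.trans (le_of_eq ?_)
    congr 1; ring
  -- the decomposition
  set ghi := res {v | V1 ≤ (v : ℝ)} g with hghi
  set glo := res {v | (v : ℝ) < V1} g with hglo
  set rhi := res {v | E0 ≤ (v : ℝ)} r with hrhi
  set rlo := res {v | (v : ℝ) < E0} r with hrlo
  have hgs : g = ghi + glo := by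
    rw [hghi, hglo]
    have : ({v : ℕ | (v : ℝ) < V1} : Set ℕ) = ({v : ℕ | V1 ≤ (v : ℝ)} : Set ℕ)ᶜ := by
      ext v; simp
    rw [this, res_add_compl]
  have hrs : r = rhi + rlo := by
    rw [hrhi, hrlo]
    have : ({v : ℕ | (v : ℝ) < E0} : Set ℕ) = ({v : ℕ | E0 ≤ (v : ℝ)} : Set ℕ)ᶜ := by
      ext v; simp
    rw [this, res_add_compl]
  set c := glo * rlo with hc
  have hcs : c = res {v | v ≠ 1} c + res {v | v = 1} c := by
    have : ({v : ℕ | v = 1} : Set ℕ) = ({v : ℕ | v ≠ 1} : Set ℕ)ᶜ := by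
      ext v; simp
    rw [this, res_add_compl]
  have hdec : g * (r * a) = ghi * (r * a) + glo * (rhi * a) + res {v | v ≠ 1} c * a +
      res {v | v = 1} c * a := by
    calc g * (r * a) = ghi * (r * a) + glo * ((rhi + rlo) * a) := by
          rw [← hrs]; nth_rewrite 1 [hgs]; ring
      _ = ghi * (r * a) + glo * (rhi * a) + c * a := by rw [hc]; ring
      _ = _ := by nth_rewrite 1 [hcs]; ring
  have hone : (res {v | v = 1} c * a) n = a n := by
    rw [ArithmeticFunction.mul_apply]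
    rw [Finset.sum_eq_single (1, n)]
    · rw [res_of_mem c (show (1, n).1 ∈ {v : ℕ | v = 1} from rfl), hc,
        ArithmeticFunction.mul_apply]
      simp only [Nat.divisorsAntidiagonal_one, Finset.sum_singleton]
      rw [hglo, hrlo, res_of_mem g (show (1 : ℕ) ∈ {v : ℕ | (v : ℝ) < V1} by simpa using hV1),
        res_of_mem r (show (1 : ℕ) ∈ {v : ℕ | (v : ℝ) < E0} by simpa using hE0), hg, hr,
        cmA_one, cmA_one]
      ring
    · rintro ⟨u, w⟩ hx hne
      have hx' := Nat.mem_divisorsAntidiagonal.mp hx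
      rw [res_of_notMem c (show (u, w).1 ∉ {v : ℕ | v = 1} from fun h => hne (by
        have h' : u = 1 := h
        have h2 : u * w = n := hx'.1
        rw [h', one_mul] at h2
        rw [h', h2])), zero_mul]
    · intro h
      exact absurd (Nat.mem_divisorsAntidiagonal.mpr ⟨one_mul n, hn⟩) h
  have hhi : (ghi * (r * a)) n ≤ (res {v | V0 ≤ (v : ℝ) ∧ (v : ℝ) ≤ V1} g * cmA ft) n := by
    rw [hghi, hg]
    refine conv_mid (fun p hp => mul_nonneg (by norm_num) (hga p hp)) h0 h01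
      (fun p hpp hne => hp p hpp (fun h => hne (by rw [h, mul_zero]))) (r * a) (cmA ft)
      (conv_nonneg hr0 ha0) ?_ hn
    intro m hm
    have h1 : (r * a) m ≤ cm (fun p => 3 * rb p + 3 * al p) m :=
      cm_conv_le (fun p hp => mul_nonneg (by norm_num) (hrb p hp))
        (fun p hp => mul_nonneg (by norm_num) (hal p hp)) hm
    have h2 : (cmA (fun p => 3 * ga p) * (r * a)) m ≤
        (cmA (fun p => 3 * ga p) * cmA (fun p => 3 * rb p + 3 * al p)) m := by
      rw [ArithmeticFunction.mul_apply, ArithmeticFunction.mul_apply]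
      refine Finset.sum_le_sum fun x hx => ?_
      refine mul_le_mul_of_nonneg_left ?_ (hg0 _)
      have hx2 : x.2 ≠ 0 := by
        have hx' := Nat.mem_divisorsAntidiagonal.mp hx
        intro h
        rw [h, mul_zero] at hx'
        exact hx'.2 hx'.1.symm
      exact cm_conv_le (fun p hp => mul_nonneg (by norm_num) (hrb p hp))
        (fun p hp => mul_nonneg (by norm_num) (hal p hp)) hx2
    refine h2.trans ((cm_conv_le (fun p hp => mul_nonneg (by norm_num) (hga p hp))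
      (fun p hp => add_nonneg (mul_nonneg (by norm_num) (hrb p hp))
        (mul_nonneg (by norm_num) (hal p hp))) hm).trans ?_)
    refine cm_mono (fun p hp _ => ?_) (fun p hp _ => ?_)
    · have := hga p hp; have := hrb p hp; have := hal p hp; linarith
    · have := hft p hp; linarith
  have hdec' := congrArg (fun f : ArithmeticFunction ℝ => f n) hdec
  simp only [ArithmeticFunction.add_apply] at hdec'
  rw [hone] at hdec'
  by_cases hpr : n.Prime
  · rw [if_pos hpr, if_pos hpr, cm_prime _ hpr]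
    have h1 : (g * (r * a)) n = g n + r n + a n := by
      rw [ArithmeticFunction.mul_apply, Nat.sum_divisorsAntidiagonal
        (f := fun x y : ℕ => g x * (r * a) y), hpr.sum_divisors, Nat.div_self hpr.pos, Nat.div_one,
        ArithmeticFunction.mul_apply, ArithmeticFunction.mul_apply,
        Nat.sum_divisorsAntidiagonal (n := n) (f := fun x y : ℕ => r x * a y), hpr.sum_divisors,
        Nat.div_self hpr.pos, Nat.div_one]
      simp only [Nat.divisorsAntidiagonal_one, Finset.sum_singleton]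
      rw [hg, hr, ha, cmA_one, cmA_one, cmA_one]
      ring
    have hgn : g n = 3 * ga n := cm_prime _ hpr
    have hrn : r n = 3 * rb n := cm_prime _ hpr
    have := hga n hpr
    have := hrb n hpr
    linarith
  · rw [if_neg hpr, if_neg hpr]
    have : cm (fun p => 3 * al p) n = a n := rfl
    linarith

/-- the sum of a convolution over a window, with a bound for the inner sums -/
theorem sum_conv_le (f h : ArithmeticFunction ℝ) (hf : ∀ n, 0 ≤ f n) {A B : ℕ} (hA : 1 ≤ A)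
    (c : ℕ → ℝ) (hc : ∀ v, 1 ≤ v → v < B → f v ≠ 0 → ∑ m ∈ wdiv v A B, h m ≤ c v) :
    ∑ n ∈ Finset.Ico A B, (f * h) n ≤ ∑ v ∈ Finset.Ico 1 B, f v * c v := by
  rw [sum_conv f h hA]
  refine Finset.sum_le_sum fun v hv => ?_
  by_cases h0 : f v = 0
  · rw [h0, zero_mul, zero_mul]
  · obtain ⟨h1, h2⟩ := Finset.mem_Ico.mp hv
    exact mul_le_mul_of_nonneg_left (hc v h1 h2 h0) (hf v)

/-- **Light part of STAR**, combinatorial form. -/
theorem light_sum {al rb ga ft : ℕ → ℝ} (hal : ∀ p, p.Prime → 0 ≤ al p)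
    (hrb : ∀ p, p.Prime → 0 ≤ rb p) (hga : ∀ p, p.Prime → 0 ≤ ga p)
    (hft : ∀ p, p.Prime → 3 * ga p + 3 * rb p + 3 * al p ≤ ft p)
    {V0 V1 E0 : ℝ} (h0 : 1 ≤ V0) (h01 : V0 ≤ V1) (hV1 : 1 < V1) (hE0 : 1 < E0)
    (hp : ∀ p, p.Prime → ga p ≠ 0 → (p : ℝ) * V0 ≤ V1) {A B : ℕ} (hA : 1 ≤ A)
    (D s Z4 Z5 Z6 : ℝ) (hZ6 : 0 ≤ D * Z6)
    (H4 : ∀ v : ℕ, 1 ≤ v → V0 ≤ (v : ℝ) → (v : ℝ) ≤ V1 →
      ∑ m ∈ wdiv v A B, cm ft m ≤ D * Z4 * (v : ℝ) ^ (-s))
    (H5 : ∀ v : ℕ, 1 ≤ v → (v : ℝ) < V1 →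
      ∑ m ∈ wdiv v A B, (res {v | E0 ≤ (v : ℝ)} (cmA fun p => 3 * rb p) *
        (cmA fun p => 3 * al p)) m ≤ D * Z5 * (v : ℝ) ^ (-s))
    (H6 : ∀ t : ℕ, 1 ≤ t → (t : ℝ) < V1 * E0 →
      ∑ u ∈ wdiv t A B, cm (fun p => 3 * al p) u ≤ D * Z6 * (t : ℝ) ^ (-s)) :
    ∑ n ∈ Finset.Ico A B, cm (fun p => al p + rb p + ga p) n ≤
      ∑ p ∈ (Finset.Ico A B).filter Nat.Prime, al p +
      ∑ n ∈ (Finset.Ico A B).filter (fun n => ¬ n.Prime), cm (fun p => 3 * al p) n +
      D * Z4 * ∑ v ∈ (Finset.Ico 1 B).filter (fun v : ℕ => V0 ≤ (v : ℝ) ∧ (v : ℝ) ≤ V1),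
        cm (fun p => 3 * ga p) v * (v : ℝ) ^ (-s) +
      D * Z5 * ∑ v ∈ (Finset.Ico 1 B).filter (fun v : ℕ => (v : ℝ) < V1),
        cm (fun p => 3 * ga p) v * (v : ℝ) ^ (-s) +
      D * Z6 * ∑ t ∈ Finset.Ico 2 B, cm (fun p => 3 * ga p + 3 * rb p) t * (t : ℝ) ^ (-s) := by
  classical
  set g := cmA fun p => 3 * ga p with hg
  set r := cmA fun p => 3 * rb p with hr
  set a := cmA fun p => 3 * al p with ha
  have hg0 : ∀ n, 0 ≤ g n := fun n => cm_nonneg (fun p hp => mul_nonneg (by norm_num) (hga p hp)) n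
  have hr0 : ∀ n, 0 ≤ r n := fun n => cm_nonneg (fun p hp => mul_nonneg (by norm_num) (hrb p hp)) n
  have ha0 : ∀ n, 0 ≤ a n := fun n => cm_nonneg (fun p hp => mul_nonneg (by norm_num) (hal p hp)) n
  have hpt : ∀ n ∈ Finset.Ico A B, _ := fun n hn => light_point hal hrb hga hft h0 h01 hV1 hE0 hp
    (n := n) (by have := (Finset.mem_Ico.mp hn).1; omega)
  refine (Finset.sum_le_sum hpt).trans ?_
  rw [Finset.sum_add_distrib, Finset.sum_add_distrib, Finset.sum_add_distrib,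
    Finset.sum_add_distrib]
  have e1 : ∑ n ∈ Finset.Ico A B, (if n.Prime then al n else 0) =
      ∑ p ∈ (Finset.Ico A B).filter Nat.Prime, al p := by
    rw [Finset.sum_filter]
  have e2 : ∑ n ∈ Finset.Ico A B, (if n.Prime then 0 else cm (fun p => 3 * al p) n) =
      ∑ n ∈ (Finset.Ico A B).filter (fun n => ¬ n.Prime), cm (fun p => 3 * al p) n := by
    rw [Finset.sum_filter]
    refine Finset.sum_congr rfl fun n _ => ?_
    by_cases h : n.Prime <;> simp [h]
  rw [e1, e2]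
  refine add_le_add (add_le_add (add_le_add le_rfl ?_) ?_) ?_
  · -- medium divisor
    refine (sum_conv_le _ _ (res_nonneg hg0) hA (fun v => D * Z4 * (v : ℝ) ^ (-s)) ?_).trans ?_
    · intro v hv1 _ hne
      have hv : V0 ≤ (v : ℝ) ∧ (v : ℝ) ≤ V1 := by
        by_contra hcon
        exact hne (res_of_notMem _ (show v ∉ {v : ℕ | V0 ≤ (v : ℝ) ∧ (v : ℝ) ≤ V1} from hcon))
      exact H4 v hv1 hv.1 hv.2
    · rw [Finset.mul_sum, Finset.sum_filter]
      refine Finset.sum_le_sum fun v _ => ?_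
      by_cases h : V0 ≤ (v : ℝ) ∧ (v : ℝ) ≤ V1
      · rw [if_pos h, res_of_mem _ (show v ∈ {v : ℕ | V0 ≤ (v : ℝ) ∧ (v : ℝ) ≤ V1} from h)]
        have : g v = cm (fun p => 3 * ga p) v := rfl
        rw [this]
        exact le_of_eq (by ring)
      · rw [if_neg h, res_of_notMem _
          (show v ∉ {v : ℕ | V0 ≤ (v : ℝ) ∧ (v : ℝ) ≤ V1} from h), zero_mul]
  · -- large R-part
    refine (sum_conv_le _ _ (res_nonneg hg0) hA (fun v => D * Z5 * (v : ℝ) ^ (-s)) ?_).trans ?_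
    · intro v hv1 _ hne
      have hv : (v : ℝ) < V1 := by
        by_contra hcon
        exact hne (res_of_notMem _ (show v ∉ {v : ℕ | (v : ℝ) < V1} from hcon))
      exact H5 v hv1 hv
    · rw [Finset.mul_sum, Finset.sum_filter]
      refine Finset.sum_le_sum fun v _ => ?_
      by_cases h : (v : ℝ) < V1
      · rw [if_pos h, res_of_mem _ (show v ∈ {v : ℕ | (v : ℝ) < V1} from h)]
        have : g v = cm (fun p => 3 * ga p) v := rfl
        rw [this]
        exact le_of_eq (by ring)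
      · rw [if_neg h, res_of_notMem _ (show v ∉ {v : ℕ | (v : ℝ) < V1} from h), zero_mul]
  · -- ordinary numbers
    have hlo : ∀ n, 0 ≤ (res {v : ℕ | (v : ℝ) < V1} g * res {v : ℕ | (v : ℝ) < E0} r) n :=
      conv_nonneg (res_nonneg hg0) (res_nonneg hr0)
    refine (sum_conv_le _ _ (res_nonneg hlo) hA (fun t => D * Z6 * (t : ℝ) ^ (-s)) ?_).trans ?_
    · intro t ht1 _ hne
      have ht : (t : ℝ) < V1 * E0 := by
        by_contra hcon
        push Not at hcon
        apply hne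
        have h1 : (res {v : ℕ | (v : ℝ) < V1} g * res {v : ℕ | (v : ℝ) < E0} r) t = 0 := by
          rw [ArithmeticFunction.mul_apply]
          refine Finset.sum_eq_zero fun x hx => ?_
          have hx' := (Nat.mem_divisorsAntidiagonal.mp hx).1
          by_cases hx1 : (x.1 : ℝ) < V1
          · by_cases hx2 : (x.2 : ℝ) < E0
            · exfalso
              have h3 : (t : ℝ) = x.1 * x.2 := by rw [← hx']; push_cast; ring
              have h4 : (x.1 : ℝ) * x.2 < V1 * E0 :=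
                mul_lt_mul'' hx1 hx2 (Nat.cast_nonneg _) (Nat.cast_nonneg _)
              linarith
            · rw [res_of_notMem r (show x.2 ∉ {v : ℕ | (v : ℝ) < E0} from hx2), mul_zero]
          · rw [res_of_notMem g (show x.1 ∉ {v : ℕ | (v : ℝ) < V1} from hx1), zero_mul]
        by_cases h2 : t ≠ 1
        · rw [res_of_mem _ (show t ∈ {v : ℕ | v ≠ 1} from h2), h1]
        · rw [res_of_notMem _ (show t ∉ {v : ℕ | v ≠ 1} from h2)]
      exact H6 t ht1 ht
    · rw [Finset.mul_sum]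
      have hsub : Finset.Ico 2 B ⊆ Finset.Ico 1 B := Finset.Ico_subset_Ico_left (by norm_num)
      rw [← Finset.sum_subset hsub]
      · refine Finset.sum_le_sum fun t ht => ?_
        have ht2 := (Finset.mem_Ico.mp ht).1
        rw [res_of_mem _ (show t ∈ {v : ℕ | v ≠ 1} from by simp; omega)]
        have h1 : (res {v : ℕ | (v : ℝ) < V1} g * res {v : ℕ | (v : ℝ) < E0} r) t ≤
            cm (fun p => 3 * ga p + 3 * rb p) t := by
          refine (conv_mono (res_nonneg hg0) (res_nonneg hr0) (res_le hg0) (res_le hr0) t).trans ?_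
          exact cm_conv_le (fun p hp => mul_nonneg (by norm_num) (hga p hp))
            (fun p hp => mul_nonneg (by norm_num) (hrb p hp)) (by omega)
        have h2 : (0 : ℝ) ≤ D * Z6 * (t : ℝ) ^ (-s) := mul_nonneg hZ6 (by positivity)
        calc _ ≤ cm (fun p => 3 * ga p + 3 * rb p) t * (D * Z6 * (t : ℝ) ^ (-s)) :=
              mul_le_mul_of_nonneg_right h1 h2
          _ = _ := by ring
      · intro t ht htn
        have h1 : t = 1 := by
          rw [Finset.mem_Ico] at ht htn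
          omega
        rw [res_of_notMem _ (show t ∉ {v : ℕ | v ≠ 1} from by simp [h1]), zero_mul]

end Pool.Agent.Helper33.KS
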