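import Pool.Agent.Helper33.KS.CM

/-!
# Windows and divisors (project KS, MP_768c9c_nt)

`wdiv v A B` is the window `{m : A ≤ v m < B}`.
-/

set_option autoImplicit false

namespace Pool.Agent.Helper33.KS

open Finset

/-- `wdiv v A B = {m : A ≤ v m < B}` -/
def wdiv (v A B : ℕ) : Finset ℕ := Finset.Ico (A ⌈/⌉ v) (B ⌈/⌉ v)

theorem mem_wdiv {v A B m : ℕ} (hv : 0 < v) : m ∈ wdiv v A B ↔ A ≤ v * m ∧ v * m < B := by
  unfold wdiv
  rw [Finset.mem_Ico, ceilDiv_le_iff_le_mul hv, lt_iff_not_ge, ceilDiv_le_iff_le_mul hv, not_le]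

theorem wdiv_one (A B : ℕ) : wdiv 1 A B = Finset.Ico A B := by
  unfold wdiv
  simp

/-- the length of `wdiv v A B` is at most `(B - A) / v + 1` -/
theorem wdiv_len_le {v A B : ℕ} (hv : 0 < v) :
    ((B ⌈/⌉ v : ℕ) : ℝ) - ((A ⌈/⌉ v : ℕ) : ℝ) ≤ ((B : ℝ) - A) / v + 1 := by
  have h1 : (A : ℝ) ≤ v * ((A ⌈/⌉ v : ℕ) : ℝ) := by
    have := (ceilDiv_le_iff_le_mul (b := A) (c := A ⌈/⌉ v) hv).mp le_rfl
    exact_mod_cast this
  have h2 : (v : ℝ) * ((B ⌈/⌉ v : ℕ) : ℝ) ≤ B + v := by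
    have : v * (B ⌈/⌉ v) ≤ B + v := by
      by_contra hc
      push Not at hc
      have h3 : B ≤ v * (B ⌈/⌉ v - 1) := by
        rw [Nat.mul_sub, mul_one]; omega
      have h4 := (ceilDiv_le_iff_le_mul hv).mpr h3
      have h5 : 0 < B ⌈/⌉ v := by
        rcases Nat.eq_zero_or_pos (B ⌈/⌉ v) with h | h
        · rw [h, mul_zero] at hc; omega
        · exact h
      omega
    exact_mod_cast this
  have hv' : (0 : ℝ) < v := by exact_mod_cast hv
  rw [div_add_one hv'.ne', le_div_iff₀ hv']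
  nlinarith

/-- the length of `wdiv v A B` is at least `(B - A) / v - 1` -/
theorem le_wdiv_len {v A B : ℕ} (hv : 0 < v) :
    ((B : ℝ) - A) / v - 1 ≤ ((B ⌈/⌉ v : ℕ) : ℝ) - ((A ⌈/⌉ v : ℕ) : ℝ) := by
  have h1 : (B : ℝ) ≤ v * ((B ⌈/⌉ v : ℕ) : ℝ) := by
    have := (ceilDiv_le_iff_le_mul (b := B) (c := B ⌈/⌉ v) hv).mp le_rfl
    exact_mod_cast this
  have h2 : (v : ℝ) * ((A ⌈/⌉ v : ℕ) : ℝ) ≤ A + v := by
    have : v * (A ⌈/⌉ v) ≤ A + v := by
      by_contra hc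
      push Not at hc
      have h3 : A ≤ v * (A ⌈/⌉ v - 1) := by
        rw [Nat.mul_sub, mul_one]; omega
      have h4 := (ceilDiv_le_iff_le_mul hv).mpr h3
      have h5 : 0 < A ⌈/⌉ v := by
        rcases Nat.eq_zero_or_pos (A ⌈/⌉ v) with h | h
        · rw [h, mul_zero] at hc; omega
        · exact h
      omega
    exact_mod_cast this
  have hv' : (0 : ℝ) < v := by exact_mod_cast hv
  rw [sub_le_iff_le_add, div_le_iff₀ hv']
  nlinarith

theorem ceilDiv_ge {v A : ℕ} (hv : 0 < v) : (A : ℝ) / v ≤ ((A ⌈/⌉ v : ℕ) : ℝ) := by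
  have hv' : (0 : ℝ) < v := by exact_mod_cast hv
  rw [div_le_iff₀ hv']
  have := (ceilDiv_le_iff_le_mul (b := A) (c := A ⌈/⌉ v) hv).mp le_rfl
  rw [mul_comm] at this
  exact_mod_cast this

theorem ceilDiv_lt {v A : ℕ} (hv : 0 < v) : ((A ⌈/⌉ v : ℕ) : ℝ) < (A : ℝ) / v + 1 := by
  have hv' : (0 : ℝ) < v := by exact_mod_cast hv
  rw [div_add_one hv'.ne', lt_div_iff₀ hv']
  have : (A ⌈/⌉ v) * v < A + v := by
    by_contra hc
    push Not at hc
    have h3 : A ≤ v * (A ⌈/⌉ v - 1) := by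
      rw [Nat.mul_sub, mul_one, mul_comm]; omega
    have h4 := (ceilDiv_le_iff_le_mul hv).mpr h3
    have h5 : 0 < A ⌈/⌉ v := by
      rcases Nat.eq_zero_or_pos (A ⌈/⌉ v) with h | h
      · rw [h, zero_mul] at hc; omega
      · exact h
    omega
  exact_mod_cast this

/-- sums of Dirichlet convolutions over windows -/
theorem sum_conv (f h : ArithmeticFunction ℝ) {A B : ℕ} (hA : 1 ≤ A) :
    ∑ n ∈ Finset.Ico A B, (f * h) n = ∑ v ∈ Finset.Ico 1 B, f v * ∑ m ∈ wdiv v A B, h m := by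
  simp only [ArithmeticFunction.mul_apply, Finset.mul_sum]
  rw [Finset.sum_sigma', Finset.sum_sigma']
  refine Finset.sum_bij' (fun x _ => ⟨x.2.1, x.2.2⟩) (fun x _ => ⟨x.1 * x.2, (x.1, x.2)⟩)
    ?_ ?_ ?_ ?_ ?_
  · rintro ⟨n, v, m⟩ hx
    simp only [Finset.mem_sigma, Finset.mem_Ico, Nat.mem_divisorsAntidiagonal] at hx ⊢
    obtain ⟨⟨h1, h2⟩, h3, h4⟩ := hx
    have hv : 0 < v := by
      rcases Nat.eq_zero_or_pos v with h | h
      · subst h; simp at h3; omega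
      · exact h
    have hm : 0 < m := by
      rcases Nat.eq_zero_or_pos m with h | h
      · subst h; simp at h3; omega
      · exact h
    refine ⟨⟨hv, ?_⟩, ?_⟩
    · calc v = v * 1 := (mul_one v).symm
        _ ≤ v * m := Nat.mul_le_mul_left v hm
        _ < B := by rw [h3]; exact h2
    · rw [mem_wdiv hv, h3]; exact ⟨h1, h2⟩
  · rintro ⟨v, m⟩ hx
    simp only [Finset.mem_sigma, Finset.mem_Ico, Nat.mem_divisorsAntidiagonal] at hx ⊢
    obtain ⟨⟨h1, h2⟩, h3⟩ := hx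
    rw [mem_wdiv (by omega)] at h3
    exact ⟨h3, trivial, by omega⟩
  · rintro ⟨n, v, m⟩ hx
    simp only [Finset.mem_sigma, Finset.mem_Ico, Nat.mem_divisorsAntidiagonal] at hx
    obtain ⟨_, h3, _⟩ := hx
    simp only [h3]
  · rintro ⟨v, m⟩ _
    rfl
  · rintro ⟨n, v, m⟩ _
    rfl

/-- restriction of an arithmetic function to a set -/
noncomputable def res (s : Set ℕ) (f : ArithmeticFunction ℝ) : ArithmeticFunction ℝ where
  toFun := s.indicator f
  map_zero' := by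
    by_cases h : (0 : ℕ) ∈ s
    · rw [Set.indicator_of_mem h]; exact f.map_zero
    · rw [Set.indicator_of_notMem h]

theorem res_apply (s : Set ℕ) (f : ArithmeticFunction ℝ) (n : ℕ) :
    res s f n = s.indicator f n := rfl

theorem res_of_mem {s : Set ℕ} (f : ArithmeticFunction ℝ) {n : ℕ} (h : n ∈ s) :
    res s f n = f n := Set.indicator_of_mem h _

theorem res_of_notMem {s : Set ℕ} (f : ArithmeticFunction ℝ) {n : ℕ} (h : n ∉ s) :
    res s f n = 0 := Set.indicator_of_notMem h _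

theorem res_nonneg {s : Set ℕ} {f : ArithmeticFunction ℝ} (hf : ∀ n, 0 ≤ f n) (n : ℕ) :
    0 ≤ res s f n := Set.indicator_nonneg (fun n _ => hf n) n

theorem res_le {s : Set ℕ} {f : ArithmeticFunction ℝ} (hf : ∀ n, 0 ≤ f n) (n : ℕ) :
    res s f n ≤ f n := Set.indicator_le_self' (fun n _ => hf n) n

theorem res_add_compl (s : Set ℕ) (f : ArithmeticFunction ℝ) : res s f + res sᶜ f = f := by
  ext n
  rw [ArithmeticFunction.add_apply]
  by_cases h : n ∈ s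
  · rw [res_of_mem f h, res_of_notMem f (show n ∉ sᶜ from fun h' => h' h), add_zero]
  · rw [res_of_notMem f h, res_of_mem f (show n ∈ sᶜ from h), zero_add]

theorem conv_nonneg {f h : ArithmeticFunction ℝ} (hf : ∀ n, 0 ≤ f n) (hh : ∀ n, 0 ≤ h n) (n : ℕ) :
    0 ≤ (f * h) n := by
  rw [ArithmeticFunction.mul_apply]
  exact Finset.sum_nonneg fun x _ => mul_nonneg (hf _) (hh _)

theorem conv_mono {f f' h h' : ArithmeticFunction ℝ} (hf : ∀ n, 0 ≤ f n) (hh : ∀ n, 0 ≤ h n)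
    (hff : ∀ n, f n ≤ f' n) (hhh : ∀ n, h n ≤ h' n) (n : ℕ) : (f * h) n ≤ (f' * h') n := by
  rw [ArithmeticFunction.mul_apply, ArithmeticFunction.mul_apply]
  exact Finset.sum_le_sum fun x _ => mul_le_mul (hff _) (hhh _) (hh _) ((hf _).trans (hff _))

/-- reverse splitting: `cm F * cm G ≤ cm (F + G)` -/
theorem cm_conv_le {F G : ℕ → ℝ} (hF : ∀ p, p.Prime → 0 ≤ F p) (hG : ∀ p, p.Prime → 0 ≤ G p)
    {n : ℕ} (hn : n ≠ 0) : (cmA F * cmA G) n ≤ cm (fun p => F p + G p) n := by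
  rw [((cmA_mult _).mul (cmA_mult _)).multiplicative_factorization _ hn, cm_apply _ hn]
  unfold Finsupp.prod
  refine Finset.prod_le_prod (fun p hp => ?_) fun p hp => ?_
  · show 0 ≤ (cmA F * cmA G) _
    exact conv_nonneg (fun n => cm_nonneg hF n) (fun n => cm_nonneg hG n) _
  · have hpp := Nat.prime_of_mem_primeFactors (Nat.support_factorization n ▸ hp)
    set v := n.factorization p
    show (cmA F * cmA G) (p ^ v) ≤ (F p + G p) ^ v
    rw [ArithmeticFunction.mul_apply, Nat.sum_divisorsAntidiagonal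
      (f := fun a b => cmA F a * cmA G b), Nat.sum_divisors_prime_pow hpp, add_pow]
    refine Finset.sum_le_sum fun j hj => ?_
    have hjv : j ≤ v := by have := Finset.mem_range.mp hj; omega
    have h2 : p ^ v / p ^ j = p ^ (v - j) := Nat.pow_div hjv hpp.pos
    rw [h2, cmA_apply, cmA_apply, cm_pow_prime _ hpp, cm_pow_prime _ hpp]
    have h7 : 0 ≤ F p ^ j * G p ^ (v - j) :=
      mul_nonneg (pow_nonneg (hF p hpp) _) (pow_nonneg (hG p hpp) _)
    have h8 : (1 : ℝ) ≤ (v.choose j : ℝ) := by exact_mod_cast Nat.choose_pos hjv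
    exact le_mul_of_one_le_right h7 h8

theorem cmA_nonneg {F : ℕ → ℝ} (hF : ∀ p, p.Prime → 0 ≤ F p) (n : ℕ) : 0 ≤ cmA F n :=
  cm_nonneg hF n

theorem cmA_one (F : ℕ → ℝ) : cmA F 1 = 1 := map_one (cm F)

theorem cmA_mul (F : ℕ → ℝ) (m n : ℕ) : cmA F (m * n) = cmA F m * cmA F n := map_mul (cm F) _ _

theorem cmA_zero (F : ℕ → ℝ) : cmA F 0 = 0 := map_zero (cm F)

end Pool.Agent.Helper33.KS
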